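import Pool.Agent.K3h2.AP.Asm

/-!
# Almost all integral points
-/

set_option autoImplicit false

namespace Pool.Agent.K3h2.AP

open Finset Pool.Agent.Y732 WeierstrassCurve Filter Topology

/-- `τ ‖h (P)‖ ≤ 1` for some canonical height `h` -/
def ExcR (p : ℕ) [Fact p.Prime] (τ : ℝ) (v : Fin 3 → ℤ) : Prop :=
  IsOrdinaryW p (cv v) ∧ ∃ h : (WQ (cv v)).Point → ℚ_[p], IsHeightW p (cv v) h ∧
    τ * ‖h (P v)‖ ≤ 1

lemma log_le_natLog {N : ℕ} (hN : 1 ≤ N) : Real.log N ≤ ((Nat.log 2 (1 * N ^ 1) + 1 : ℕ) : ℝ) := by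
  rw [one_mul, pow_one]
  have h2 : (N : ℝ) ≤ ((2 ^ (Nat.log 2 N + 1) : ℕ) : ℝ) := by
    exact_mod_cast (Nat.lt_pow_succ_log_self one_lt_two N).le
  have h3 : Real.log (N : ℝ) ≤ Real.log ((2 ^ (Nat.log 2 N + 1) : ℕ) : ℝ) := by
    apply Real.log_le_log _ h2
    exact_mod_cast hN
  have h4 : Real.log ((2 ^ (Nat.log 2 N + 1) : ℕ) : ℝ) =
      ((Nat.log 2 N + 1 : ℕ) : ℝ) * Real.log 2 := by
    rw [Nat.cast_pow, Real.log_pow, Nat.cast_ofNat]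
  have h5 : Real.log 2 ≤ 1 := by
    have := Real.log_two_lt_d9
    linarith
  have h6 : (0 : ℝ) ≤ ((Nat.log 2 N + 1 : ℕ) : ℝ) := by positivity
  nlinarith

open scoped Classical in
/-- the primes in question -/
noncomputable def Pr (N : ℕ) (δ : ℝ) : Finset ℕ :=
  (Icc 1 N).filter fun p : ℕ => p.Prime ∧ 5 ≤ p ∧ (p : ℝ) ^ 5 * (N : ℝ) ^ δ ≤ N

lemma sum_Pr {N : ℕ} (hN : 1 ≤ N) {δ : ℝ} (hδ : 0 < δ) :
    ∑ p ∈ Pr N δ, (p : ℝ) ^ 4 / (⌊(p : ℝ) ^ 5 * (N : ℝ) ^ δ⌋₊ : ℝ) ≤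
      4 * pl 1 1 1 (δ / 2) N / (⌊(N : ℝ) ^ (δ / 2)⌋₊ : ℝ) := by
  have hN1 : (1 : ℝ) ≤ N := by exact_mod_cast hN
  have hN0 : (0 : ℝ) < N := by linarith
  have hNδ : (1 : ℝ) ≤ (N : ℝ) ^ δ := Real.one_le_rpow hN1 hδ.le
  have hNδ2 : (1 : ℝ) ≤ (N : ℝ) ^ (δ / 2) := Real.one_le_rpow hN1 (by linarith)
  have h1 : ∀ p ∈ Pr N δ, (p : ℝ) ^ 4 / (⌊(p : ℝ) ^ 5 * (N : ℝ) ^ δ⌋₊ : ℝ) ≤
      2 / (N : ℝ) ^ δ * (p : ℝ)⁻¹ := by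
    intro p hp
    unfold Pr at hp
    obtain ⟨hp1, hp2, hp3, hp4⟩ := mem_filter.1 hp
    have hpR : (1 : ℝ) ≤ p := by exact_mod_cast hp2.one_le
    have h2 : (1 : ℝ) ≤ (p : ℝ) ^ 5 * (N : ℝ) ^ δ := by
      have := one_le_pow₀ (n := 5) hpR
      nlinarith
    have h3 := floor_half h2
    have h4 : (0 : ℝ) < (p : ℝ) ^ 5 * (N : ℝ) ^ δ / 2 := by positivity
    calc (p : ℝ) ^ 4 / (⌊(p : ℝ) ^ 5 * (N : ℝ) ^ δ⌋₊ : ℝ) ≤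
          (p : ℝ) ^ 4 / ((p : ℝ) ^ 5 * (N : ℝ) ^ δ / 2) :=
          div_le_div_of_nonneg_left (by positivity) h4 h3
      _ = _ := by
          field_simp
  have h2 : ∑ p ∈ Pr N δ, (p : ℝ)⁻¹ ≤ 1 + Real.log N := by
    have h6 := harmonic_le_one_add_log N
    refine le_trans ?_ h6
    rw [harmonic_eq_sum_Icc]
    push_cast
    apply sum_le_sum_of_subset_of_nonneg
    · exact filter_subset _ _
    · intro i _ _
      positivity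
  have h3 := log_le_natLog hN
  have h4 : (1 : ℝ) ≤ ((Nat.log 2 (1 * N ^ 1) + 1 : ℕ) : ℝ) := by
    exact_mod_cast Nat.le_add_left 1 _
  have h5 : ∑ p ∈ Pr N δ, (p : ℝ)⁻¹ ≤ 2 * ((Nat.log 2 (1 * N ^ 1) + 1 : ℕ) : ℝ) := by linarith
  have hf : (0 : ℝ) < (⌊(N : ℝ) ^ (δ / 2)⌋₊ : ℝ) := by
    exact_mod_cast Nat.floor_pos.2 hNδ2
  have hff : (⌊(N : ℝ) ^ (δ / 2)⌋₊ : ℝ) * (⌊(N : ℝ) ^ (δ / 2)⌋₊ : ℝ) ≤ (N : ℝ) ^ δ := by
    have h6 : (⌊(N : ℝ) ^ (δ / 2)⌋₊ : ℝ) ≤ (N : ℝ) ^ (δ / 2) := Nat.floor_le (by positivity)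
    calc _ ≤ (N : ℝ) ^ (δ / 2) * (N : ℝ) ^ (δ / 2) := mul_le_mul h6 h6 hf.le (by positivity)
      _ = _ := by
        rw [← Real.rpow_add hN0]
        congr 1
        ring
  refine (sum_le_sum h1).trans ?_
  rw [← mul_sum]
  calc 2 / (N : ℝ) ^ δ * ∑ p ∈ Pr N δ, (p : ℝ)⁻¹
      ≤ 2 / (N : ℝ) ^ δ * (2 * ((Nat.log 2 (1 * N ^ 1) + 1 : ℕ) : ℝ)) :=
        mul_le_mul_of_nonneg_left h5 (by positivity)
    _ = (4 * ((Nat.log 2 (1 * N ^ 1) + 1 : ℕ) : ℝ)) / (N : ℝ) ^ δ := by ring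
    _ ≤ (4 * ((Nat.log 2 (1 * N ^ 1) + 1 : ℕ) : ℝ)) /
        ((⌊(N : ℝ) ^ (δ / 2)⌋₊ : ℝ) * (⌊(N : ℝ) ^ (δ / 2)⌋₊ : ℝ)) :=
        div_le_div_of_nonneg_left (by positivity) (mul_pos hf hf) hff
    _ = _ := by
        unfold pl
        rw [pow_one]
        field_simp

open scoped Classical in
/-- for almost all integral points the heights are not small at all primes up to `N ^ ((1 - δ) / 5)` -/
theorem almost_all {ε : ℝ} (hε : 0 < ε) : ∃ m : ℕ, 1 ≤ m ∧ ∀ (c : ℕ) {δ : ℝ}, 0 < δ →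
    ∃ N₀ : ℕ, ∀ N : ℕ, N₀ ≤ N → ∀ H : Fin 3 → ℕ, (∀ l, N ≤ H l ∧ H l ≤ N ^ c) →
      (((box H).filter fun v => (cv v).Δ = 0 ∨ (¬ ∃ d, Typ m d v) ∨
        ∃ p : ℕ, ∃ hp : Fact p.Prime, 5 ≤ p ∧ (p : ℝ) ^ 5 * (N : ℝ) ^ δ ≤ N ∧
          @ExcR p hp ((p : ℝ) ^ 5 * (N : ℝ) ^ δ) v).card : ℝ) ≤ ε * (box H).card := by
  obtain ⟨L₀, hL₀⟩ := exists_nat_ge (8 / ε)
  set L := max 2 L₀ with hLdef
  have hL2 : 2 ≤ L := le_max_left _ _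
  have hLR : (0 : ℝ) < L := by exact_mod_cast (by omega : 0 < L)
  have hLε : 2 / (L : ℝ) ≤ ε / 4 := by
    have h1 : 8 / ε ≤ L := hL₀.trans (by exact_mod_cast le_max_right 2 L₀)
    rw [div_le_iff₀ hε] at h1
    rw [div_le_div_iff₀ hLR (by norm_num)]
    linarith
  obtain ⟨t, ht⟩ := pow_unbounded_of_one_lt (12 * L / ε) (one_lt_two (α := ℝ))
  have htε : 3 * (L : ℝ) / 2 ^ (t + 1) ≤ ε / 4 := by
    rw [div_lt_iff₀ hε] at ht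
    rw [div_le_div_iff₀ (by positivity) (by norm_num), pow_succ]
    have : (0 : ℝ) < 2 ^ t * ε := by positivity
    nlinarith
  set m := mul L (3 * t + 5) with hm
  refine ⟨m, mul_pos' _ _, fun c δ hδ => ?_⟩
  obtain ⟨C₁, C, K, hmain⟩ := count hL2 t c
  rw [← hm] at hmain
  -- the error terms
  have lim : Tendsto (fun N : ℕ => ((C₁ + 3 * L : ℕ) : ℝ) / (N : ℝ) + 4 * pl 1 c 1 1 N +
      32 * (m : ℝ) ^ 2 * (pl C K (L + 1) (δ / 2) N * pl 1 1 1 (δ / 2) N)) atTop (𝓝 0) := by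
    have l1 : Tendsto (fun N : ℕ => ((C₁ + 3 * L : ℕ) : ℝ) / (N : ℝ)) atTop (𝓝 0) :=
      tendsto_const_div_atTop_nhds_zero_nat _
    have l2 := (pl_tendsto 1 c 1 (δ := 1) one_pos).const_mul 4
    have l3 := ((pl_tendsto C K (L + 1) (δ := δ / 2) (by positivity)).mul
      (pl_tendsto 1 1 1 (δ := δ / 2) (by positivity))).const_mul (32 * (m : ℝ) ^ 2)
    have l4 := (l1.add l2).add l3
    simpa using l4
  have hev := (lim.eventually (gt_mem_nhds (by positivity : (0 : ℝ) < ε / 2))).and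
    (eventually_ge_atTop 1)
  obtain ⟨N₀, hN₀⟩ := eventually_atTop.1 hev
  refine ⟨N₀, fun N hN H hH => ?_⟩
  obtain ⟨hR, hN1⟩ := hN₀ N hN
  have hN1R : (1 : ℝ) ≤ N := by exact_mod_cast hN1
  have hN0R : (0 : ℝ) < N := by linarith
  have hNδ : (1 : ℝ) ≤ (N : ℝ) ^ δ := Real.one_le_rpow hN1R hδ.le
  have key := hmain N H hN1 hH (Pr N δ) (by
      intro p hp
      unfold Pr at hp
      obtain ⟨-, h1, h2, -⟩ := mem_filter.1 hp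
      exact ⟨h1, h2⟩) (fun p => ⌊(p : ℝ) ^ 5 * (N : ℝ) ^ δ⌋₊) (by
      intro p hp
      unfold Pr at hp
      obtain ⟨-, h1, -, -⟩ := mem_filter.1 hp
      apply Nat.floor_pos.2
      have hpR : (1 : ℝ) ≤ p := by exact_mod_cast h1.one_le
      have := one_le_pow₀ (n := 5) hpR
      nlinarith) (by
      intro p hp l
      unfold Pr at hp
      obtain ⟨-, -, -, h1⟩ := mem_filter.1 hp
      have h2 : ⌊(p : ℝ) ^ 5 * (N : ℝ) ^ δ⌋₊ ≤ N := by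
        have := Nat.floor_mono h1
        rwa [Nat.floor_natCast] at this
      have h3 := (hH l).1
      unfold sd
      omega)
  have hsub : ((box H).filter fun v => (cv v).Δ = 0 ∨ (¬ ∃ d, Typ m d v) ∨
        ∃ p : ℕ, ∃ hp : Fact p.Prime, 5 ≤ p ∧ (p : ℝ) ^ 5 * (N : ℝ) ^ δ ≤ N ∧
          @ExcR p hp ((p : ℝ) ^ 5 * (N : ℝ) ^ δ) v) ⊆
      (box H).filter fun v => Ex m (Pr N δ) (fun p => ⌊(p : ℝ) ^ 5 * (N : ℝ) ^ δ⌋₊) v := by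
    intro v hv
    rw [mem_filter] at hv ⊢
    refine ⟨hv.1, ?_⟩
    rcases hv.2 with h | h | ⟨p, hp, hp5, hpN, ho, h, hh, hs⟩
    · exact Or.inl h
    · exact Or.inr (Or.inl h)
    · right
      right
      have hpR : (1 : ℝ) ≤ p := by exact_mod_cast hp.out.one_le
      have hpN' : p ≤ N := by
        have h1 : (p : ℝ) ≤ (p : ℝ) ^ 5 := by
          calc (p : ℝ) = (p : ℝ) ^ 1 := (pow_one _).symm
            _ ≤ (p : ℝ) ^ 5 := pow_le_pow_right₀ hpR (by norm_num)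
        have h2 : (p : ℝ) ^ 5 * 1 ≤ (p : ℝ) ^ 5 * (N : ℝ) ^ δ :=
          mul_le_mul_of_nonneg_left hNδ (by positivity)
        exact_mod_cast (by linarith : (p : ℝ) ≤ N)
      refine ⟨p, ?_, hp, ho, h, hh, ?_⟩
      · unfold Pr
        exact mem_filter.2 ⟨mem_Icc.2 ⟨hp.out.one_le, hpN'⟩, hp.out, hp5, hpN⟩
      · refine le_trans (mul_le_mul_of_nonneg_right ?_ (norm_nonneg _)) hs
        exact Nat.floor_le (by positivity)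
  have hcard : (((box H).filter fun v => (cv v).Δ = 0 ∨ (¬ ∃ d, Typ m d v) ∨
        ∃ p : ℕ, ∃ hp : Fact p.Prime, 5 ≤ p ∧ (p : ℝ) ^ 5 * (N : ℝ) ^ δ ≤ N ∧
          @ExcR p hp ((p : ℝ) ^ 5 * (N : ℝ) ^ δ) v).card : ℝ) ≤
      (((box H).filter fun v =>
        Ex m (Pr N δ) (fun p => ⌊(p : ℝ) ^ 5 * (N : ℝ) ^ δ⌋₊) v).card : ℝ) := by
    exact_mod_cast card_le_card hsub
  refine hcard.trans (key.trans (mul_le_mul_of_nonneg_right ?_ (by positivity)))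
  -- comparison of the error terms
  have hB4 : 2 * ((1 + ((Nat.log 2 (1 * N ^ c) + 1 : ℕ) : ℝ)) / (N : ℝ)) ≤ 4 * pl 1 c 1 1 N := by
    unfold pl
    rw [Real.rpow_one, Nat.floor_natCast, pow_one]
    have h4 : (1 : ℝ) ≤ ((Nat.log 2 (1 * N ^ c) + 1 : ℕ) : ℝ) := by
      exact_mod_cast Nat.le_add_left 1 _
    rw [← mul_div_assoc, ← mul_div_assoc]
    apply div_le_div_of_nonneg_right _ hN0R.le
    linarith
  have hE : 8 * (m : ℝ) ^ 2 * (∑ p ∈ Pr N δ, (p : ℝ) ^ 4 / (⌊(p : ℝ) ^ 5 * (N : ℝ) ^ δ⌋₊ : ℝ)) *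
      (((Nat.log 2 (C * N ^ K) + 1 : ℕ) : ℝ) ^ (L + 1)) ≤
      32 * (m : ℝ) ^ 2 * (pl C K (L + 1) (δ / 2) N * pl 1 1 1 (δ / 2) N) := by
    have h1 := sum_Pr hN1 hδ
    have h2 : 8 * (m : ℝ) ^ 2 * (∑ p ∈ Pr N δ, (p : ℝ) ^ 4 / (⌊(p : ℝ) ^ 5 * (N : ℝ) ^ δ⌋₊ : ℝ)) *
      (((Nat.log 2 (C * N ^ K) + 1 : ℕ) : ℝ) ^ (L + 1)) ≤
      8 * (m : ℝ) ^ 2 * (4 * pl 1 1 1 (δ / 2) N / (⌊(N : ℝ) ^ (δ / 2)⌋₊ : ℝ)) *
      (((Nat.log 2 (C * N ^ K) + 1 : ℕ) : ℝ) ^ (L + 1)) := by gcongr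
    refine h2.trans (le_of_eq ?_)
    have e1 : pl C K (L + 1) (δ / 2) N = ((Nat.log 2 (C * N ^ K) + 1 : ℕ) : ℝ) ^ (L + 1) /
      (⌊(N : ℝ) ^ (δ / 2)⌋₊ : ℝ) := rfl
    rw [e1]
    ring
  push_cast at hR hB4 hE ⊢
  linarith

end Pool.Agent.K3h2.AP
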