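import Pool.Agent.K3h2.AP.Low
import Mathlib.Algebra.MvPolynomial.SchwartzZippel

/-!
# Counting: residue classes, the roots of a cubic polynomial modulo a prime power, zeros of a
# polynomial in a box, smooth numbers
-/

set_option autoImplicit false

namespace Pool.Agent.K3h2.AP

open Finset Pool.Agent.Y732

/-- the box -/
noncomputable def box (H : Fin 3 → ℕ) : Finset (Fin 3 → ℤ) :=
  Fintype.piFinset fun l => Icc (-(H l : ℤ)) (H l)

/-- its sides -/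
def sd (H : Fin 3 → ℕ) (l : Fin 3) : ℕ := 2 * H l + 1

lemma card_side (h : ℕ) : (Icc (-(h : ℤ)) (h : ℤ)).card = 2 * h + 1 := by
  rw [Int.card_Icc]
  omega

lemma card_box (H : Fin 3 → ℕ) : (box H).card = ∏ l, sd H l := by
  unfold box sd
  rw [Fintype.card_piFinset]
  exact prod_congr rfl fun l _ => card_side _

lemma mem_box {H : Fin 3 → ℕ} {v : Fin 3 → ℤ} : v ∈ box H ↔ ∀ l, -(H l : ℤ) ≤ v l ∧ v l ≤ H l := by
  unfold box
  rw [Fintype.mem_piFinset]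
  simp only [mem_Icc]

/-- the number of elements of a residue class -/
lemma card_class (h : ℕ) {r : ℕ} (hr : 0 < r) (w : ℤ) :
    (((Icc (-(h : ℤ)) (h : ℤ)).filter fun x => x ≡ w [ZMOD r]).card : ℝ) ≤
      ((2 * h + 1 : ℕ) : ℝ) / r + 1 := by
  have hr' : (0 : ℤ) < r := by exact_mod_cast hr
  have h1 := Int.Ico_filter_modEq_card (-(h : ℤ)) ((h : ℤ) + 1) hr' w
  have h2 : Icc (-(h : ℤ)) (h : ℤ) = Ico (-(h : ℤ)) ((h : ℤ) + 1) := by
    ext x
    rw [mem_Icc, mem_Ico]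
    omega
  rw [h2]
  have h3 : ((((Ico (-(h : ℤ)) ((h : ℤ) + 1)).filter fun x => x ≡ w [ZMOD r]).card : ℤ) : ℝ) =
      ((max (⌈((h : ℤ) + 1 - w : ℤ) / ((r : ℤ) : ℚ)⌉ - ⌈(-(h : ℤ) - w : ℤ) / ((r : ℤ) : ℚ)⌉) 0 : ℤ) : ℝ) := by
    rw [h1]
    push_cast
    rfl
  rw [Int.cast_natCast] at h3
  rw [h3]
  have hrR : (0 : ℝ) < r := by exact_mod_cast hr
  rw [Int.cast_max, Int.cast_zero]
  apply max_le
  · have h4 : ((⌈((h : ℤ) + 1 - w : ℤ) / ((r : ℤ) : ℚ)⌉ : ℤ) : ℚ) < ((h : ℤ) + 1 - w : ℤ) / ((r : ℤ) : ℚ) + 1 :=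
      Int.ceil_lt_add_one _
    have h5 : ((-(h : ℤ) - w : ℤ) / ((r : ℤ) : ℚ) : ℚ) ≤ ((⌈(-(h : ℤ) - w : ℤ) / ((r : ℤ) : ℚ)⌉ : ℤ) : ℚ) :=
      Int.le_ceil _
    have hrQ : (0 : ℚ) < r := by exact_mod_cast hr
    have h6 : ((⌈((h : ℤ) + 1 - w : ℤ) / ((r : ℤ) : ℚ)⌉ - ⌈(-(h : ℤ) - w : ℤ) / ((r : ℤ) : ℚ)⌉ : ℤ) : ℚ) ≤
        ((2 * h + 1 : ℕ) : ℚ) / r + 1 := by
      push_cast at h4 h5 ⊢
      have e1 : (2 * (h : ℚ) + 1) / r + 1 = ((h : ℚ) + 1 - w) / r + 1 - (-(h : ℚ) - w) / r := by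
        field_simp
        ring
      rw [e1]
      linarith
    have h7 := (Rat.cast_le (K := ℝ)).2 h6
    rw [Rat.cast_intCast] at h7
    refine h7.trans (le_of_eq ?_)
    push_cast
    ring
  · positivity

/-- if a set of integers meets at most `m` residue classes -/
lemma card_classes (h : ℕ) {r : ℕ} (hr : 0 < r) (Z : Finset ℤ)
    (hZ : Z ⊆ Icc (-(h : ℤ)) (h : ℤ)) (m : ℕ)
    (hm : (Z.image fun z : ℤ => (z : ZMod r)).card ≤ m) :
    (Z.card : ℝ) ≤ m * (((2 * h + 1 : ℕ) : ℝ) / r + 1) := by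
  have h1 : Z.card ≤ ∑ c ∈ Z.image fun z : ℤ => (z : ZMod r),
      (Z.filter fun z : ℤ => (z : ZMod r) = c).card :=
    (card_eq_sum_card_image (fun z : ℤ => (z : ZMod r)) Z).le
  have h2 : ∀ c ∈ Z.image fun z : ℤ => (z : ZMod r),
      ((Z.filter fun z : ℤ => (z : ZMod r) = c).card : ℝ) ≤ ((2 * h + 1 : ℕ) : ℝ) / r + 1 := by
    intro c hc
    obtain ⟨w, -, rfl⟩ := mem_image.1 hc
    refine le_trans ?_ (card_class h hr w)
    norm_cast
    refine card_le_card fun z hz => ?_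
    rw [mem_filter] at hz ⊢
    exact ⟨hZ hz.1, (ZMod.intCast_eq_intCast_iff _ _ _).1 hz.2⟩
  have h3 : (Z.card : ℝ) ≤ ∑ c ∈ Z.image fun z : ℤ => (z : ZMod r),
      ((Z.filter fun z : ℤ => (z : ZMod r) = c).card : ℝ) := by exact_mod_cast h1
  refine h3.trans ((sum_le_sum h2).trans ?_)
  rw [sum_const, nsmul_eq_mul]
  have h4 : ((Z.image fun z : ℤ => (z : ZMod r)).card : ℝ) ≤ m := by exact_mod_cast hm
  exact mul_le_mul_of_nonneg_right h4 (by positivity)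

variable {ℓ : ℕ} [hℓ : Fact ℓ.Prime]

lemma dvd_quot {w z : ℤ} {j t : ℕ} (hw : ¬ (ℓ : ℤ) ^ (t + 1) ∣ w) (h : (ℓ : ℤ) ^ (j + t) ∣ w * z) :
    (ℓ : ℤ) ^ j ∣ z := by
  rw [← norm_dvd] at h ⊢
  have h1 := int_norm_ge hw
  have hℓ0 : (0 : ℝ) < ((ℓ : ℝ)⁻¹) ^ t := by
    have : (0 : ℝ) < ℓ := by exact_mod_cast hℓ.out.pos
    positivity
  push_cast at h
  rw [norm_mul, pow_add] at h
  have h2 : ((ℓ : ℝ)⁻¹) ^ t * ‖(z : ℚ_[ℓ])‖ ≤ ((ℓ : ℝ)⁻¹) ^ j * ((ℓ : ℝ)⁻¹) ^ t :=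
    (mul_le_mul_of_nonneg_right h1 (norm_nonneg _)).trans h
  rw [mul_comm (((ℓ : ℝ)⁻¹) ^ j)] at h2
  exact le_of_mul_le_mul_left h2 hℓ0

/-- the discriminant as a cubic polynomial in `A` -/
def cub (x y A : ℤ) : ℤ := Dd ![A, x, y]

lemma cub_classes (x y : ℤ) (t : ℕ) (Z : Finset ℤ) (hZ : ∀ A ∈ Z, (ℓ : ℤ) ^ (3 * t + 5) ∣ cub x y A) :
    (Z.image fun z : ℤ => (z : ZMod (ℓ ^ (t + 1)))).card ≤ 3 := by
  by_contra hcon
  push Not at hcon
  have hc : Fintype.card (Fin 4) ≤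
      Fintype.card (Z.image fun z : ℤ => (z : ZMod (ℓ ^ (t + 1)))) := by
    rw [Fintype.card_fin, Fintype.card_coe]
    omega
  obtain ⟨f⟩ := Function.Embedding.nonempty_of_card_le hc
  have h1 : ∀ i, ∃ a ∈ Z, (a : ZMod (ℓ ^ (t + 1))) = f i := fun i => by
    obtain ⟨a, ha, he⟩ := mem_image.1 (f i).2
    exact ⟨a, ha, he⟩
  choose a ha he using h1
  have hne : ∀ i j, i ≠ j → ¬ (ℓ : ℤ) ^ (t + 1) ∣ a i - a j := by
    intro i j hij hd
    apply hij
    apply f.injective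
    apply Subtype.ext
    rw [← he, ← he]
    rw [← sub_eq_zero, ← Int.cast_sub, ZMod.intCast_zmod_eq_zero_iff_dvd]
    exact_mod_cast hd
  -- divided differences
  set u : ℤ := y ^ 2 - x ^ 3 with hu
  have hc3 : ∀ A, cub x y A = 16 * A ^ 3 + 108 * (u - A * x) ^ 2 := by
    intro A
    unfold cub Dd
    simp only [Matrix.cons_val_zero, Matrix.cons_val_one, Matrix.cons_val]
    rw [hu]
    ring
  have d1 : ∀ i j, i ≠ j → (ℓ : ℤ) ^ (2 * t + 5) ∣
      16 * (a i ^ 2 + a i * a j + a j ^ 2) + 108 * (-2 * u * x + x ^ 2 * (a i + a j)) := by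
    intro i j hij
    apply dvd_quot (hne i j hij)
    have h2 := dvd_sub (hZ _ (ha i)) (hZ _ (ha j))
    rw [show 3 * t + 5 = 2 * t + 5 + t by ring] at h2
    rw [hc3, hc3] at h2
    refine h2.trans (dvd_of_eq ?_)
    ring
  have d2 : ∀ i j k, i ≠ j → i ≠ k → j ≠ k → (ℓ : ℤ) ^ (t + 5) ∣
      16 * (a i + a j + a k) + 108 * x ^ 2 := by
    intro i j k hij hik hjk
    apply dvd_quot (hne i k hik)
    have h2 := dvd_sub (d1 i j hij) (d1 j k hjk)
    rw [show 2 * t + 5 = t + 5 + t by ring] at h2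
    refine h2.trans (dvd_of_eq ?_)
    ring
  have d3 : (ℓ : ℤ) ^ 5 ∣ 16 := by
    apply dvd_quot (hne 0 3 (by decide))
    have h2 := dvd_sub (d2 0 1 2 (by decide) (by decide) (by decide))
      (d2 1 2 3 (by decide) (by decide) (by decide))
    rw [show t + 5 = 5 + t by ring] at h2
    refine h2.trans (dvd_of_eq ?_)
    ring
  have h5 : (ℓ : ℤ) ^ 5 ≤ 16 := Int.le_of_dvd (by norm_num) d3
  have h6 : (2 : ℤ) ≤ ℓ := by exact_mod_cast hℓ.out.two_le
  have h7 : (2 : ℤ) ^ 5 ≤ (ℓ : ℤ) ^ 5 := pow_le_pow_left₀ (by norm_num) h6 5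
  omega

/-- the zeros of a polynomial in the box -/
lemma card_zeros {F : MvPolynomial (Fin 3) ℤ} (hF : F ≠ 0) {N : ℕ} (hN : 0 < N) {H : Fin 3 → ℕ}
    (hH : ∀ l, N ≤ H l) :
    (((box H).filter fun v => MvPolynomial.eval v F = 0).card : ℝ) ≤
      ((∑ l, F.degreeOf l : ℕ) : ℝ) / N * (box H).card := by
  have h1 := MvPolynomial.schwartz_zippel_sum_degreeOf hF (fun l => Icc (-(H l : ℤ)) (H l))
  have hb : (∏ i, ((Icc (-(H i : ℤ)) (H i : ℤ)).card : ℚ≥0)) = ((box H).card : ℚ≥0) := by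
    unfold box
    rw [Fintype.card_piFinset]
    push_cast
    rfl
  rw [hb] at h1
  have hpos : (0 : ℚ≥0) < ((box H).card : ℚ≥0) := by
    have : 0 < (box H).card := by
      rw [card_box]
      exact prod_pos fun l _ => by unfold sd; omega
    exact_mod_cast this
  rw [div_le_iff₀ hpos] at h1
  have h2 : (∑ i, ((F.degreeOf i : ℚ≥0) / ((Icc (-(H i : ℤ)) (H i : ℤ)).card : ℚ≥0))) ≤
      ((∑ l, F.degreeOf l : ℕ) : ℚ≥0) / N := by
    push_cast
    rw [sum_div]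
    refine sum_le_sum fun i _ => ?_
    have hN' : (0 : ℚ≥0) < N := by exact_mod_cast hN
    refine div_le_div_of_nonneg_left (by positivity) hN' ?_
    rw [card_side]
    have := hH i
    exact_mod_cast (by omega : N ≤ 2 * H i + 1)
  have h3 := h1.trans (mul_le_mul_of_nonneg_right h2 hpos.le)
  have h4 : ((((box H).filter fun v => MvPolynomial.eval v F = 0).card : ℚ≥0) : ℝ) ≤
      ((((∑ l, F.degreeOf l : ℕ) : ℚ≥0) / N * ((box H).card : ℚ≥0) : ℚ≥0) : ℝ) := by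
    exact_mod_cast h3
  push_cast at h4 ⊢
  exact h4

open scoped Classical in
/-- the number of smooth numbers -/
lemma card_smooth (L M : ℕ) :
    ((Icc 1 M).filter fun d : ℕ => ∀ q : ℕ, q.Prime → q ∣ d → q ≤ L).card ≤
      (Nat.log 2 M + 1) ^ (L + 1) := by
  have h1 : (Fintype.piFinset fun _ : Fin (L + 1) => range (Nat.log 2 M + 1)).card =
      (Nat.log 2 M + 1) ^ (L + 1) := by
    rw [Fintype.card_piFinset, prod_const, card_range, card_univ, Fintype.card_fin]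
  rw [← h1]
  apply card_le_card_of_injOn (fun (d : ℕ) (i : Fin (L + 1)) => d.factorization i)
  · intro d hd
    rw [mem_coe, mem_filter, mem_Icc] at hd
    rw [mem_coe, Fintype.mem_piFinset]
    intro i
    rw [mem_range, Nat.lt_succ_iff]
    change d.factorization (i : ℕ) ≤ Nat.log 2 M
    by_cases hi : (i : ℕ).Prime
    · apply Nat.le_log_of_pow_le one_lt_two
      have h2 : (i : ℕ) ^ d.factorization i ≤ d :=
        Nat.ordProj_le (i : ℕ) (by omega)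
      exact ((Nat.pow_le_pow_left hi.two_le _).trans h2).trans hd.1.2
    · rw [Nat.factorization_eq_zero_of_not_prime _ hi]
      exact Nat.zero_le _
  · intro d hd d' hd' h
    rw [mem_coe, mem_filter, mem_Icc] at hd hd'
    apply Nat.eq_of_factorization_eq (by omega) (by omega)
    intro q
    by_cases hq : q ≤ L
    · exact congrFun h ⟨q, Nat.lt_succ_of_le hq⟩
    · by_cases hqp : q.Prime
      · rw [Nat.factorization_eq_zero_of_not_dvd (fun h2 => hq (hd.2 q hqp h2)),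
          Nat.factorization_eq_zero_of_not_dvd (fun h2 => hq (hd'.2 q hqp h2))]
      · rw [Nat.factorization_eq_zero_of_not_prime _ hqp,
          Nat.factorization_eq_zero_of_not_prime _ hqp]

/-- the size of a polynomial -/
lemma poly_bound (F : MvPolynomial (Fin 3) ℤ) : ∃ C K : ℕ, ∀ (M : ℕ) (v : Fin 3 → ℤ), 1 ≤ M →
    (∀ l, |v l| ≤ M) → |MvPolynomial.eval v F| ≤ (C * M ^ K : ℕ) := by
  induction F using MvPolynomial.induction_on with
  | C a =>
    refine ⟨a.natAbs, 0, fun M v _ _ => ?_⟩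
    rw [MvPolynomial.eval_C]
    simp
  | add F G hF hG =>
    obtain ⟨C, K, hF⟩ := hF
    obtain ⟨C', K', hG⟩ := hG
    refine ⟨C + C', K + K', fun M v hM hv => ?_⟩
    rw [map_add]
    refine (abs_add_le _ _).trans ((add_le_add (hF M v hM hv) (hG M v hM hv)).trans ?_)
    norm_cast
    rw [Nat.add_mul]
    have h1 : M ^ K ≤ M ^ (K + K') := Nat.pow_le_pow_right hM (by omega)
    have h2 : M ^ K' ≤ M ^ (K + K') := Nat.pow_le_pow_right hM (by omega)
    exact add_le_add (Nat.mul_le_mul_left _ h1) (Nat.mul_le_mul_left _ h2)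
  | mul_X F i hF =>
    obtain ⟨C, K, hF⟩ := hF
    refine ⟨C, K + 1, fun M v hM hv => ?_⟩
    rw [map_mul, MvPolynomial.eval_X, abs_mul]
    refine (mul_le_mul (hF M v hM hv) (hv i) (abs_nonneg _) (by positivity)).trans ?_
    apply le_of_eq
    push_cast
    ring

end Pool.Agent.K3h2.AP
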