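import Pool.Agent.K3h2.AP.Idx

/-!
# Multiples in lowest terms
-/

set_option autoImplicit false

namespace Pool.Agent.K3h2.AP

open Pool.Agent.Y732 WeierstrassCurve

variable {ℓ : ℕ} [hℓ : Fact ℓ.Prime]

/-- `Sg` in terms of the coordinates of a point which are coprime at `ℓ` -/
lemma sg_iff {A B a b e : ℤ} (hc : ¬ ((ℓ : ℤ) ∣ a ∧ (ℓ : ℤ) ∣ e)) (he : e ≠ 0)
    (hQ : (WQ (Wc A B)).Nonsingular ((a : ℚ) / (e : ℚ) ^ 2) ((b : ℚ) / (e : ℚ) ^ 3)) :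
    Sg ℓ A B (.some _ _ hQ) ↔ ¬ (ℓ : ℤ) ∣ e ∧ (ℓ : ℤ) ∣ 2 * b ∧ (ℓ : ℤ) ∣ 3 * a ^ 2 + A * e ^ 4 := by
  have heL : (e : ℚ_[ℓ]) ≠ 0 := by exact_mod_cast he
  constructor
  · rintro ⟨x, y, h, hxy, hx, hy, h2, h3⟩
    simp only [Affine.Point.some.injEq] at hxy
    obtain ⟨rfl, rfl⟩ := hxy
    push_cast at hx hy h2 h3
    have hle : ¬ (ℓ : ℤ) ∣ e := by
      intro hle
      have ha : ¬ (ℓ : ℤ) ∣ a := fun ha => hc ⟨ha, hle⟩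
      have h4 := norm_eq1 ha
      have h5 := norm_dvd1.2 hle
      rw [norm_div, norm_pow, h4] at hx
      have h6 : 0 < ‖(e : ℚ_[ℓ])‖ := norm_pos_iff.2 heL
      rw [div_le_one (by positivity)] at hx
      nlinarith
    have hen := norm_eq1 hle
    refine ⟨hle, ?_, ?_⟩
    · rw [← norm_dvd1]
      have e1 : (((2 * b : ℤ)) : ℚ_[ℓ]) = (2 * ((b : ℚ_[ℓ]) / (e : ℚ_[ℓ]) ^ 3)) * (e : ℚ_[ℓ]) ^ 3 := by
        push_cast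
        field_simp
      rw [e1, norm_mul, norm_pow, hen, one_pow, mul_one]
      exact h2
    · rw [← norm_dvd1]
      have e1 : (((3 * a ^ 2 + A * e ^ 4 : ℤ)) : ℚ_[ℓ]) =
          (3 * ((a : ℚ_[ℓ]) / (e : ℚ_[ℓ]) ^ 2) ^ 2 + A) * (e : ℚ_[ℓ]) ^ 4 := by
        push_cast
        field_simp
      rw [e1, norm_mul, norm_pow, hen, one_pow, mul_one]
      exact h3
  · rintro ⟨hle, h2, h3⟩
    have hen := norm_eq1 hle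
    refine ⟨_, _, hQ, rfl, ?_, ?_, ?_, ?_⟩
    · push_cast
      rw [norm_div, norm_pow, hen, one_pow, div_one]
      exact ni _
    · push_cast
      rw [norm_div, norm_pow, hen, one_pow, div_one]
      exact ni _
    · push_cast
      rw [← norm_dvd1] at h2
      have e1 : (2 * ((b : ℚ_[ℓ]) / (e : ℚ_[ℓ]) ^ 3)) = (((2 * b : ℤ)) : ℚ_[ℓ]) / (e : ℚ_[ℓ]) ^ 3 := by
        push_cast
        ring
      rw [e1, norm_div, norm_pow, hen, one_pow, div_one]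
      exact h2
    · push_cast
      rw [← norm_dvd1] at h3
      have e1 : (3 * ((a : ℚ_[ℓ]) / (e : ℚ_[ℓ]) ^ 2) ^ 2 + A) =
          (((3 * a ^ 2 + A * e ^ 4 : ℤ)) : ℚ_[ℓ]) / (e : ℚ_[ℓ]) ^ 4 := by
        push_cast
        field_simp
      rw [e1, norm_div, norm_pow, hen, one_pow, div_one]
      exact h3

/-- the reduction of a triple which is not singular -/
lemma mod_of {A B a b e : ℤ} (heq : OnCurve (Wc A B) a b e)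
    (hc : ¬ ((ℓ : ℤ) ∣ a ∧ (ℓ : ℤ) ∣ e))
    (h : ¬ (¬ (ℓ : ℤ) ∣ e ∧ (ℓ : ℤ) ∣ 2 * b ∧ (ℓ : ℤ) ∣ 3 * a ^ 2 + A * e ^ 4)) :
    (red (Wc A B) (ZMod ℓ)).toJacobian.Nonsingular
      ![(a : ZMod ℓ), (b : ZMod ℓ), (e : ZMod ℓ)] := by
  apply triple_mod1 heq hc
  by_cases hle : (ℓ : ℤ) ∣ e
  · exact Or.inl hle
  · right
    rintro ⟨h1, h2⟩
    apply h
    refine ⟨hle, ?_, ?_⟩
    · simpa [Wc] using h1
    · have e1 : 3 * a ^ 2 + A * e ^ 4 = -((Wc A B).a₁ * b * e -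
          (3 * a ^ 2 + 2 * (Wc A B).a₂ * a * e ^ 2 + (Wc A B).a₄ * e ^ 4)) := by
        simp only [Wc]
        ring
      rw [e1, dvd_neg]
      exact h2

lemma T_cop {W : WeierstrassCurve ℤ} {a b e : ℤ}
    (h : (red W (ZMod ℓ)).toJacobian.Nonsingular
      ![(a : ZMod ℓ), (b : ZMod ℓ), (e : ZMod ℓ)]) (n : ℕ) :
    ¬ ((ℓ : ℤ) ∣ T W a b e n 0 ∧ (ℓ : ℤ) ∣ T W a b e n 2) := by
  rintro ⟨h3, h4⟩
  rw [← ZMod.intCast_zmod_eq_zero_iff_dvd _ ℓ, ← T_cast] at h3 h4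
  exact Jacobian.X_ne_zero_of_Z_eq_zero (T_nonsingular h n) h4 h3

/-- the multiples of a point which is nonsingular modulo `ℓ` -/
lemma Sg_mul {A B a b e : ℤ} (heq : OnCurve (Wc A B) a b e)
    (hc : ¬ ((ℓ : ℤ) ∣ a ∧ (ℓ : ℤ) ∣ e)) (he : e ≠ 0)
    (hQ : (WQ (Wc A B)).Nonsingular ((a : ℚ) / (e : ℚ) ^ 2) ((b : ℚ) / (e : ℚ) ^ 3))
    (hS : ¬ Sg ℓ A B (.some _ _ hQ)) (j : ℕ) : ¬ Sg ℓ A B (j • (.some _ _ hQ)) := by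
  have hm := mod_of heq hc (fun h => hS ((sg_iff hc he hQ).2 h))
  by_cases hz : T (Wc A B) a b e j 2 = 0
  · rw [(Ti_zero_iff hQ he j).2 hz]
    rintro ⟨x, y, h, hxy, -⟩
    exact Affine.Point.some_ne_zero _ hxy.symm
  · obtain ⟨h', hj⟩ := Ti_some hQ he j hz
    rw [hj, sg_iff (T_cop hm j) hz h']
    rintro ⟨h1, h3, h4⟩
    rw [← ZMod.intCast_zmod_eq_zero_iff_dvd _ ℓ, ← T_cast] at h1
    have h2 := ((Jacobian.nonsingular_iff_of_Z_ne_zero h1).1 (T_nonsingular hm j)).2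
    rw [Jacobian.eval_polynomialX, Jacobian.eval_polynomialY] at h2
    change _ * T _ _ _ _ j 1 * T _ _ _ _ j 2 - (3 * T _ _ _ _ j 0 ^ 2 +
      2 * _ * T _ _ _ _ j 0 * T _ _ _ _ j 2 ^ 2 + _ * T _ _ _ _ j 2 ^ 4) ≠ 0 ∨
      2 * T _ _ _ _ j 1 + _ * T _ _ _ _ j 0 * T _ _ _ _ j 2 + _ * T _ _ _ _ j 2 ^ 3 ≠ 0 at h2
    rw [T_cast, T_cast, T_cast] at h2
    have a1 : (red (Wc A B) (ZMod ℓ)).toJacobian.a₁ = 0 := by simp [Wc]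
    have a2 : (red (Wc A B) (ZMod ℓ)).toJacobian.a₂ = 0 := by simp [Wc]
    have a3 : (red (Wc A B) (ZMod ℓ)).toJacobian.a₃ = 0 := by simp [Wc]
    have a4 : (red (Wc A B) (ZMod ℓ)).toJacobian.a₄ = (A : ZMod ℓ) := by simp [Wc]
    rw [a1, a2, a3, a4] at h2
    rw [← ZMod.intCast_zmod_eq_zero_iff_dvd _ ℓ] at h3 h4
    push_cast at h3 h4
    rcases h2 with h2 | h2
    · apply h2
      linear_combination -h4
    · apply h2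
      linear_combination h3

/-- a multiple of an integral point in lowest terms -/
lemma lowest {A B x y : ℤ} (hP : (WQ (Wc A B)).Nonsingular (((x : ℤ) : ℚ) / ((1 : ℤ) : ℚ) ^ 2)
      (((y : ℤ) : ℚ) / ((1 : ℤ) : ℚ) ^ 3)) {n : ℕ} (hn : T (Wc A B) x y 1 n 2 ≠ 0) :
    ∃ (d : ℕ) (a b e : ℤ)
      (hQ : (WQ (Wc A B)).Nonsingular ((a : ℚ) / (e : ℚ) ^ 2) ((b : ℚ) / (e : ℚ) ^ 3)),
      0 < d ∧ T (Wc A B) x y 1 n 0 = (d : ℤ) ^ 2 * a ∧ T (Wc A B) x y 1 n 1 = (d : ℤ) ^ 3 * b ∧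
      T (Wc A B) x y 1 n 2 = d * e ∧ e ≠ 0 ∧ IsCoprime a e ∧ OnCurve (Wc A B) a b e ∧
      n • (Affine.Point.some _ _ hP) = .some _ _ hQ := by
  obtain ⟨h', hm⟩ := Ti_some hP one_ne_zero n hn
  have hE := Ti_equation hP one_ne_zero n
  unfold OnCurve at hE
  obtain ⟨d, a, b, e, hd, h0, h1, h2, he, hc, heq⟩ := reduce (A := A) (B := B)
    (Φ := T (Wc A B) x y 1 n 0) (Ω := T (Wc A B) x y 1 n 1) (Ψ := T (Wc A B) x y 1 n 2)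
    (by
      simp only [Wc] at hE ⊢
      linear_combination hE) hn
  have hdQ : (d : ℚ) ≠ 0 := by exact_mod_cast hd.ne'
  have heQ : (e : ℚ) ≠ 0 := by exact_mod_cast he
  have hX : ((T (Wc A B) x y 1 n 0 : ℤ) : ℚ) / ((T (Wc A B) x y 1 n 2 : ℤ) : ℚ) ^ 2 =
      (a : ℚ) / (e : ℚ) ^ 2 := by
    rw [h0, h2]
    push_cast
    field_simp
  have hY : ((T (Wc A B) x y 1 n 1 : ℤ) : ℚ) / ((T (Wc A B) x y 1 n 2 : ℤ) : ℚ) ^ 3 =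
      (b : ℚ) / (e : ℚ) ^ 3 := by
    rw [h1, h2]
    push_cast
    field_simp
  have hQ : (WQ (Wc A B)).Nonsingular ((a : ℚ) / (e : ℚ) ^ 2) ((b : ℚ) / (e : ℚ) ^ 3) := by
    rw [← hX, ← hY]
    exact h'
  refine ⟨d, a, b, e, hQ, hd, h0, h1, h2, he, hc, ?_, ?_⟩
  · unfold OnCurve
    simp only [Wc]
    linear_combination heq
  · rw [hm]
    simp only [Affine.Point.some.injEq]
    exact ⟨hX, hY⟩

/-- the type of a point -/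
theorem typ_core {A B x y : ℤ} (hc1 : OnCurve (Wc A B) x y 1)
    (hP : (WQ (Wc A B)).Nonsingular (((x : ℤ) : ℚ) / ((1 : ℤ) : ℚ) ^ 2)
      (((y : ℤ) : ℚ) / ((1 : ℤ) : ℚ) ^ 3)) {m : ℕ} (hm : T (Wc A B) x y 1 m 2 ≠ 0)
    (h : ∀ ℓ : ℕ, ∀ hℓ : ℓ.Prime, ∃ n, n ∣ m ∧
      ¬ @Sg ℓ ⟨hℓ⟩ A B (n • (Affine.Point.some _ _ hP))) :
    ∃ (d : ℕ) (a b e : ℤ), 0 < d ∧ e ≠ 0 ∧ IsCoprime a e ∧ OnCurve (Wc A B) a b e ∧
      EverywhereNonsingular (Wc A B) a b e ∧ T (Wc A B) x y 1 m 0 = (d : ℤ) ^ 2 * a ∧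
      T (Wc A B) x y 1 m 1 = (d : ℤ) ^ 3 * b ∧ T (Wc A B) x y 1 m 2 = d * e ∧
      ∀ ℓ : ℕ, ℓ.Prime → ℓ ∣ d → (ℓ : ℤ) ∣ 2 * y ∧ (ℓ : ℤ) ∣ 3 * x ^ 2 + A := by
  obtain ⟨d, a, b, e, hQ, hd, h0, h1, h2, he, hc, heq, hmP⟩ := lowest hP hm
  refine ⟨d, a, b, e, hd, he, hc, heq, ?_, h0, h1, h2, ?_⟩
  · intro ℓ hℓ
    have : Fact ℓ.Prime := ⟨hℓ⟩
    have hcl : ¬ ((ℓ : ℤ) ∣ a ∧ (ℓ : ℤ) ∣ e) := fun h3 =>
      (Nat.prime_iff_prime_int.1 hℓ).not_isUnit (hc.isUnit_of_dvd' h3.1 h3.2)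
    obtain ⟨n, ⟨j, hj⟩, hn⟩ := h ℓ hℓ
    have hS : ¬ Sg ℓ A B (.some _ _ hQ) := by
      rw [← hmP]
      have e1 : m • (Affine.Point.some _ _ hP) = j • (n • (Affine.Point.some _ _ hP)) := by
        rw [← mul_nsmul', hj, mul_comm]
      by_cases hn0 : T (Wc A B) x y 1 n 2 = 0
      · exfalso
        apply hm
        rw [← Ti_zero_iff hP one_ne_zero m]
        rw [← Ti_zero_iff hP one_ne_zero n] at hn0
        rw [e1, hn0]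
        exact nsmul_zero j
      · obtain ⟨d', a', b', e', hQ', hd', -, -, -, he', hc', heq', hnP⟩ := lowest hP hn0
        have hcl' : ¬ ((ℓ : ℤ) ∣ a' ∧ (ℓ : ℤ) ∣ e') := fun h3 =>
          (Nat.prime_iff_prime_int.1 hℓ).not_isUnit (hc'.isUnit_of_dvd' h3.1 h3.2)
        rw [hnP] at hn
        rw [e1, hnP]
        exact Sg_mul heq' hcl' he' hQ' hn j
    rw [sg_iff hcl he hQ] at hS
    by_cases hle : (ℓ : ℤ) ∣ e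
    · exact Or.inl hle
    · right
      rintro ⟨h3, h4⟩
      apply hS
      refine ⟨hle, ?_, ?_⟩
      · simpa [Wc] using h3
      · have e1 : 3 * a ^ 2 + A * e ^ 4 = -((Wc A B).a₁ * b * e -
            (3 * a ^ 2 + 2 * (Wc A B).a₂ * a * e ^ 2 + (Wc A B).a₄ * e ^ 4)) := by
          simp only [Wc]
          ring
        rw [e1, dvd_neg]
        exact h4
  · intro ℓ hℓ hld
    have : Fact ℓ.Prime := ⟨hℓ⟩
    by_contra hcon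
    have hldZ : (ℓ : ℤ) ∣ (d : ℤ) := Int.natCast_dvd_natCast.2 hld
    have h1' : ¬ (ℓ : ℤ) ∣ (1 : ℤ) := (Nat.prime_iff_prime_int.1 hℓ).not_dvd_one
    have hm1 := mod_of (ℓ := ℓ) hc1 (fun h3 => h1' h3.2)
      (fun h3 => hcon ⟨h3.2.1, by simpa using h3.2.2⟩)
    apply T_cop hm1 m
    constructor
    · rw [h0]
      exact (dvd_pow hldZ two_ne_zero).mul_right _
    · rw [h2]
      exact hldZ.mul_right _

lemma not_Sg_int {A B x y : ℤ} (hP : (WQ (Wc A B)).Nonsingular (((x : ℤ) : ℚ) / ((1 : ℤ) : ℚ) ^ 2)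
      (((y : ℤ) : ℚ) / ((1 : ℤ) : ℚ) ^ 3)) (h : ¬ ((ℓ : ℤ) ∣ 2 * y ∧ (ℓ : ℤ) ∣ 3 * x ^ 2 + A)) :
    ¬ Sg ℓ A B (.some _ _ hP) := by
  have h1' : ¬ (ℓ : ℤ) ∣ (1 : ℤ) := (Nat.prime_iff_prime_int.1 hℓ.out).not_dvd_one
  rw [sg_iff (fun h3 => h1' h3.2) one_ne_zero hP]
  rintro ⟨-, h2, h3⟩
  exact h ⟨h2, by simpa using h3⟩

/-- the discriminant -/
def Dd (v : Fin 3 → ℤ) : ℤ := 4 * (4 * v 0 ^ 3 + 27 * (v 2 ^ 2 - v 1 ^ 3 - v 0 * v 1) ^ 2)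

/-- the multiplier -/
def mul (L k : ℕ) : ℕ := ((L ^ k) ^ 2 + 1).factorial

lemma mul_pos' (L k : ℕ) : 1 ≤ mul L k := Nat.factorial_pos _

/-- the type of a general integral point -/
theorem typ_of {L k : ℕ} {v : Fin 3 → ℤ} (hD : (cv v).Δ ≠ 0)
    (hm : T (cv v) (v 1) (v 2) 1 (mul L k) 2 ≠ 0)
    (hL : ∀ ℓ : ℕ, ℓ.Prime → ℓ ≤ L → ¬ (ℓ : ℤ) ^ k ∣ Dd v)
    (hG : ∀ ℓ : ℕ, ℓ.Prime → L < ℓ → ¬ ((ℓ : ℤ) ∣ 2 * v 2 ∧ (ℓ : ℤ) ∣ 3 * v 1 ^ 2 + v 0)) :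
    ∃ d : ℕ, 0 < d ∧ Typ (mul L k) d v ∧ (d : ℤ) ∣ T (cv v) (v 1) (v 2) 1 (mul L k) 2 ∧
      ∀ ℓ : ℕ, ℓ.Prime → ℓ ∣ d → ℓ ≤ L := by
  obtain ⟨hP, hPe⟩ := P_eq hD
  obtain ⟨d, a, b, e, hd, he, hc, heq, hN, h0, h1, h2, hpr⟩ := typ_core (A := v 0)
    (B := v 2 ^ 2 - v 1 ^ 3 - v 0 * v 1) (x := v 1) (y := v 2) (cv_on v) hP (m := mul L k) hm (by
      intro ℓ hℓ
      have : Fact ℓ.Prime := ⟨hℓ⟩
      by_cases hl : ℓ ≤ L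
      · obtain ⟨n, hn1, hn2, hn3⟩ := finite_index (ℓ := ℓ) (k := k) (hL ℓ hℓ hl)
          (Affine.Point.some _ _ hP)
        refine ⟨n, ?_, hn3⟩
        refine Nat.dvd_factorial hn1 (hn2.trans ?_)
        gcongr
      · refine ⟨1, one_dvd _, ?_⟩
        rw [one_nsmul]
        exact not_Sg_int hP (hG ℓ hℓ (not_le.1 hl)))
  refine ⟨d, hd, ⟨hD, a, b, e, he, hc, heq, hN, h0, h1, h2⟩, ⟨e, h2⟩, ?_⟩
  intro ℓ hℓ hld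
  by_contra hcon
  exact hG ℓ hℓ (not_le.1 hcon) (hpr ℓ hℓ hld)

end Pool.Agent.K3h2.AP
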