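import Pool.Agent.R89.SR.Basis
import Pool.Agent.Y732.Pair

/-!
# Integral points a multiple of which is nonsingular modulo all primes: the number of those with a
# small height
-/

set_option autoImplicit false

namespace Pool.Agent.K3h2.AP

open Pool.Agent.Y732 Pool.Agent.R89.SR WeierstrassCurve

/-- the curve `y² = x³ + A x + B` through the point `(x, y)`, `v = (A, x, y)` -/
def cv (v : Fin 3 → ℤ) : WeierstrassCurve ℤ := ⟨0, 0, 0, v 0, v 2 ^ 2 - v 1 ^ 3 - v 0 * v 1⟩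

/-- the point -/
noncomputable def P (v : Fin 3 → ℤ) : (WQ (cv v)).Point := pt (cv v) (v 1) (v 2) 1

/-- the weights -/
def wt : Fin 3 → ℕ := ![4, 2, 3]

lemma cv_on (v : Fin 3 → ℤ) : OnCurve (cv v) (v 1) (v 2) 1 := by
  unfold OnCurve cv
  ring

/-- the point `m P` is `(a / e², b / e³)` in lowest terms, nonsingular modulo all primes, and
the common factor of the coordinates `T` is `d` -/
def Typ (m d : ℕ) (v : Fin 3 → ℤ) : Prop :=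
  (cv v).Δ ≠ 0 ∧ ∃ a b e : ℤ, e ≠ 0 ∧ IsCoprime a e ∧ OnCurve (cv v) a b e ∧
    EverywhereNonsingular (cv v) a b e ∧
    T (cv v) (v 1) (v 2) 1 m 0 = (d : ℤ) ^ 2 * a ∧ T (cv v) (v 1) (v 2) 1 m 1 = (d : ℤ) ^ 3 * b ∧
    T (cv v) (v 1) (v 2) 1 m 2 = d * e

variable {p : ℕ} [hp : Fact p.Prime]

lemma P_eq {v : Fin 3 → ℤ} (hD : (cv v).Δ ≠ 0) :
    ∃ hP : (WQ (cv v)).Nonsingular (((v 1 : ℤ) : ℚ) / ((1 : ℤ) : ℚ) ^ 2)
      (((v 2 : ℤ) : ℚ) / ((1 : ℤ) : ℚ) ^ 3), P v = .some _ _ hP :=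
  ⟨triple_rat (cv_on v) hD one_ne_zero, dif_pos _⟩

/-- `p ∤ d` -/
lemma not_dvd_both {W : WeierstrassCurve ℤ} {x y : ℤ} (heq : OnCurve W x y 1)
    (hD : ¬ (p : ℤ) ∣ W.Δ) (m : ℕ) :
    ¬ ((p : ℤ) ∣ T W x y 1 m 0 ∧ (p : ℤ) ∣ T W x y 1 m 2) := by
  rintro ⟨h3, h4⟩
  have h1 : (red W (ZMod p)).Δ ≠ 0 := red_disc hD
  have h2 : (![(x : ZMod p), (y : ZMod p), ((1 : ℤ) : ZMod p)] : Fin 3 → ZMod p) 2 ≠ 0 := by
    change ((1 : ℤ) : ZMod p) ≠ 0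
    rw [Int.cast_one]
    exact one_ne_zero
  have h5 : (red W (ZMod p)).toJacobian.Nonsingular
      ![(x : ZMod p), (y : ZMod p), ((1 : ℤ) : ZMod p)] :=
    (Jacobian.nonsingular_of_Z_ne_zero h2).2
      ((Affine.equation_iff_nonsingular_of_Δ_ne_zero (W := (red W (ZMod p)).toAffine) h1).1
        ((Jacobian.equation_of_Z_ne_zero h2).1 (heq.cast (ZMod p))))
  rw [← ZMod.intCast_zmod_eq_zero_iff_dvd _ p, ← T_cast] at h3 h4
  exact Jacobian.X_ne_zero_of_Z_eq_zero (T_nonsingular h5 m) h4 h3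

lemma Typ.mP {m d : ℕ} {v : Fin 3 → ℤ} (h : Typ m d v) :
    ∃ (a b e : ℤ) (hQ : (WQ (cv v)).Nonsingular ((a : ℚ) / (e : ℚ) ^ 2) ((b : ℚ) / (e : ℚ) ^ 3)),
      (d : ℤ) ≠ 0 ∧ e ≠ 0 ∧ IsCoprime a e ∧ OnCurve (cv v) a b e ∧
      EverywhereNonsingular (cv v) a b e ∧
      T (cv v) (v 1) (v 2) 1 m 0 = (d : ℤ) ^ 2 * a ∧
      T (cv v) (v 1) (v 2) 1 m 1 = (d : ℤ) ^ 3 * b ∧
      T (cv v) (v 1) (v 2) 1 m 2 = d * e ∧ m • P v = .some _ _ hQ := by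
  obtain ⟨hD, a, b, e, he, hc, heq, hN, h0, h1, h2⟩ := h
  obtain ⟨hP, hPe⟩ := P_eq hD
  have hd : (d : ℤ) ≠ 0 := by
    intro hd
    rw [hd] at h0 h2
    -- over `ℚ` the representative is not zero
    have h3 := T_nonsingular (triple_jac hP one_ne_zero) m
    have h4 : T (red (cv v) ℚ) ((v 1 : ℤ) : ℚ) ((v 2 : ℤ) : ℚ) ((1 : ℤ) : ℚ) m 2 = 0 := by
      rw [T_cast, h2]
      simp
    have h5 := Jacobian.X_ne_zero_of_Z_eq_zero h3 h4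
    apply h5
    show T (red (cv v) ℚ) ((v 1 : ℤ) : ℚ) ((v 2 : ℤ) : ℚ) ((1 : ℤ) : ℚ) m 0 = 0
    rw [T_cast, h0]
    simp
  have hz : T (cv v) (v 1) (v 2) 1 m 2 ≠ 0 := by
    rw [h2]
    exact mul_ne_zero hd he
  obtain ⟨h', hm⟩ := Ti_some hP one_ne_zero m hz
  have hdQ : (d : ℚ) ≠ 0 := by exact_mod_cast hd
  have heQ : (e : ℚ) ≠ 0 := by exact_mod_cast he
  have hX : ((T (cv v) (v 1) (v 2) 1 m 0 : ℤ) : ℚ) / ((T (cv v) (v 1) (v 2) 1 m 2 : ℤ) : ℚ) ^ 2 =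
      (a : ℚ) / (e : ℚ) ^ 2 := by
    rw [h0, h2]
    push_cast
    field_simp
  have hY : ((T (cv v) (v 1) (v 2) 1 m 1 : ℤ) : ℚ) / ((T (cv v) (v 1) (v 2) 1 m 2 : ℤ) : ℚ) ^ 3 =
      (b : ℚ) / (e : ℚ) ^ 3 := by
    rw [h1, h2]
    push_cast
    field_simp
  have hQ : (WQ (cv v)).Nonsingular ((a : ℚ) / (e : ℚ) ^ 2) ((b : ℚ) / (e : ℚ) ^ 3) := by
    rw [← hX, ← hY]
    exact h'
  refine ⟨a, b, e, hQ, hd, he, hc, heq, hN, h0, h1, h2, ?_⟩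
  rw [hPe, hm]
  simp only [Affine.Point.some.injEq]
  exact ⟨hX, hY⟩

/-- the heights of two points on one orbit -/
theorem typ_pair (hp5 : 5 ≤ p) {k : ℕ} (hk : 1 ≤ k) {m d : ℕ} (hm : 1 ≤ m) {v v' : Fin 3 → ℤ}
    (hv : Typ m d v) (hv' : Typ m d v') (ho : IsOrdinaryW p (cv v)) {μ : ℤ_[p]}
    (hμ : (p : ℤ_[p]) ∣ μ - 1)
    (hvc : ∀ l, (v' l : ZMod (p ^ k)) = PadicInt.toZModPow k μ ^ wt l * v l)
    {h : (WQ (cv v)).Point → ℚ_[p]} {h' : (WQ (cv v')).Point → ℚ_[p]}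
    (D : HD p (cv v) h) (D' : HD p (cv v') h') :
    ‖(m : ℚ_[p]) ^ 2 * h (P v) - (m : ℚ_[p]) ^ 2 * h' (P v') -
        (m : ℚ_[p]) ^ 2 * plog p (μ : ℚ_[p])‖ ≤ (p : ℝ) ^ 2 * ((p : ℝ)⁻¹) ^ k := by
  obtain ⟨a, b, e, hQ, hd, he, hc, heq, hN, h0, h1, h2, hmP⟩ := hv.mP
  obtain ⟨a', b', e', hQ', -, he', hc', heq', hN', h0', h1', h2', hmP'⟩ := hv'.mP
  set φ : ℤ_[p] →+* ZMod (p ^ k) := PadicInt.toZModPow k with hφ
  have c0 : (v' 0 : ZMod (p ^ k)) = φ μ ^ 4 * v 0 := hvc 0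
  have c1 : (v' 1 : ZMod (p ^ k)) = φ μ ^ 2 * v 1 := hvc 1
  have c2 : (v' 2 : ZMod (p ^ k)) = φ μ ^ 3 * v 2 := hvc 2
  have hW : red (cv v') (ZMod (p ^ k)) = twist (φ μ) (red (cv v) (ZMod (p ^ k))) := by
    ext
    · simp [twist, cv]
    · simp [twist, cv]
    · simp [twist, cv]
    · change ((v' 0 : ℤ) : ZMod (p ^ k)) = φ μ ^ 4 * ((v 0 : ℤ) : ZMod (p ^ k))
      exact c0
    · change ((v' 2 ^ 2 - v' 1 ^ 3 - v' 0 * v' 1 : ℤ) : ZMod (p ^ k)) =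
        φ μ ^ 6 * ((v 2 ^ 2 - v 1 ^ 3 - v 0 * v 1 : ℤ) : ZMod (p ^ k))
      push_cast
      rw [c0, c1, c2]
      ring
  have h11 : (p : ℤ_[p]) ∣ (1 : ℤ_[p]) - 1 := by rw [sub_self]; exact dvd_zero _
  obtain ⟨j0, j1, j2⟩ := T_compare (κ := μ) (ν := 1) (e := 1) (e' := 1) hμ h11 hW (by
      rw [map_one, one_mul]) (by rw [mul_one]; exact c1) (by rw [mul_one]; exact c2) m
  rw [← hφ, mul_one, h0, h0'] at j0
  rw [← hφ, mul_one, h1, h1'] at j1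
  rw [← hφ, mul_one, h2, h2'] at j2
  -- `d` is a unit modulo `p ^ k`
  have hpd : ¬ (p : ℤ) ∣ d := by
    intro hpd
    apply not_dvd_both (cv_on v) ho.1 m
    rw [h0, h2]
    exact ⟨(dvd_pow hpd two_ne_zero).mul_right _, hpd.mul_right _⟩
  have hdU : IsUnit ((d : ℤ) : ZMod (p ^ k)) := by
    have h3 : IsUnit ((d : ℤ) : ℤ_[p]) := not_dvd_unit hpd
    have h4 := h3.map φ
    rwa [map_intCast] at h4
  have k0 : (a' : ZMod (p ^ k)) = (φ μ ^ (m ^ 2)) ^ 2 * a := by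
    apply (hdU.pow 2).mul_left_cancel
    push_cast at j0 ⊢
    rw [j0]
    ring
  have k1 : (b' : ZMod (p ^ k)) = (φ μ ^ (m ^ 2)) ^ 3 * b := by
    apply (hdU.pow 3).mul_left_cancel
    push_cast at j1 ⊢
    rw [j1]
    ring
  have hμU : IsUnit (φ μ) := (isUnit_of_one hμ).map φ
  have hm2 : m ^ 2 - 1 + 1 = m ^ 2 := Nat.sub_add_cancel (Nat.one_le_pow _ _ hm)
  have k2 : (e' : ZMod (p ^ k)) = φ μ ^ (m ^ 2 - 1) * e := by
    apply hdU.mul_left_cancel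
    apply hμU.mul_left_cancel
    have : φ μ ^ (m ^ 2) = φ μ * φ μ ^ (m ^ 2 - 1) := by
      rw [← pow_succ', hm2]
    rw [this] at j2
    push_cast at j2 ⊢
    linear_combination j2
  have hμpow : ∀ j : ℕ, (p : ℤ_[p]) ∣ μ ^ j - 1 := fun j => dvd_pow_sub_one hμ j
  have e1 : μ * μ ^ (m ^ 2 - 1) = μ ^ (m ^ 2) := by rw [← pow_succ', hm2]
  obtain ⟨g1, -, -⟩ := pair_diff hp5 hk (κ := μ) (ν := μ ^ (m ^ 2 - 1)) hμ (hμpow _) hW
    (by rw [map_pow]; exact k2) (by rw [e1, map_pow]; exact k0) (by rw [e1, map_pow]; exact k1)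
    heq heq' hc hc' hN hN' he he' ho hQ hQ' D D'
  rw [e1] at g1
  have q1 : h (m • P v) = (m : ℚ_[p]) ^ 2 * h (P v) := quadratic D.q _ _
  have q2 : h' (m • P v') = (m : ℚ_[p]) ^ 2 * h' (P v') := quadratic D'.q _ _
  rw [hmP] at q1
  rw [hmP'] at q2
  have hμn : ‖(μ : ℚ_[p])‖ = 1 := PadicInt.isUnit_iff.1 (isUnit_of_one hμ)
  have q3 : plog p ((μ ^ (m ^ 2) : ℤ_[p]) : ℚ_[p]) = (m : ℚ_[p]) ^ 2 * plog p (μ : ℚ_[p]) := by
    have := plog_pow hμn (m ^ 2)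
    push_cast at this ⊢
    exact this
  rw [q1, q2, q3] at g1
  exact g1

/-- the exceptional points: `T₀ ‖h (P)‖ ≤ 1` -/
def Exc (p : ℕ) [Fact p.Prime] (T₀ : ℕ) (v : Fin 3 → ℤ) : Prop :=
  IsOrdinaryW p (cv v) ∧ ∃ h : (WQ (cv v)).Point → ℚ_[p], IsHeightW p (cv v) h ∧
    (T₀ : ℝ) * ‖h (P v)‖ ≤ 1

theorem typ_count (hp5 : 5 ≤ p) {m d : ℕ} (hm : 1 ≤ m) (c : Fin 3 → ℤ) (N : Fin 3 → ℕ)
    (Z : Finset (Fin 3 → ℤ)) (hZ : ∀ v ∈ Z, ∀ l, c l ≤ v l ∧ v l < c l + N l) {T₀ : ℕ}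
    (hT : ∀ l, T₀ ≤ N l) (hv : ∀ v ∈ Z, Typ m d v ∧ Exc p T₀ v) :
    Z.card * T₀ ≤ 8 * m ^ 2 * p ^ 4 * ∏ l, N l := by
  have hp1 : (1 : ℝ) < p := by exact_mod_cast hp.out.one_lt
  have hp0 : (0 : ℝ) < p := by linarith
  have main := countF_small (p := p) (d := 3) (r := 1) (N₀ := T₀) (D := m ^ 2) hp.out one_pos
    (by positivity) wt c N Z hZ hT (by
      intro k a e hk hkT he hak v μ hvZ hμ hc
      refine ⟨0, 1, by decide, ?_⟩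
      by_contra hcon
      obtain ⟨ht0, ho0, h0, hh0, hs0⟩ := hv _ (hvZ 0)
      obtain ⟨ht1, -, h1, hh1, hs1⟩ := hv _ (hvZ 1)
      have hpp : ∀ {z : ℤ}, (p : ℤ) ∣ z → (p : ℤ_[p]) ∣ (z : ℤ_[p]) := by
        intro z hz
        have := int_dvd_padic (p := p) (k := 1) (z := z) (by rwa [pow_one])
        rwa [pow_one] at this
      have hμp : ∀ i, (p : ℤ_[p]) ∣ (μ i : ℤ_[p]) - 1 := by
        intro i
        have := hpp (hμ i)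
        push_cast at this
        exact this
      have hU : ∀ i, IsUnit (μ i : ℤ_[p]) := fun i => isUnit_of_one (hμp i)
      have hn1 : ∀ i, ‖((μ i : ℤ) : ℚ_[p])‖ = 1 := by
        intro i
        have h1 : ‖(μ i : ℤ_[p])‖ = 1 := PadicInt.isUnit_iff.1 (hU i)
        exact h1
      obtain ⟨ρ, hρ⟩ := (hU 1).exists_right_inv
      have hμ1 : (p : ℤ_[p]) ∣ (μ 0 : ℤ_[p]) * ρ - 1 := by
        have e1 : (μ 0 : ℤ_[p]) * ρ - 1 = ((μ 0 : ℤ_[p]) - 1) * ρ - ((μ 1 : ℤ_[p]) - 1) * ρ := by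
          linear_combination hρ
        rw [e1]
        exact dvd_sub ((hμp 0).mul_right _) ((hμp 1).mul_right _)
      have hvc : ∀ l, (v 1 l : ZMod (p ^ k)) =
          PadicInt.toZModPow k ((μ 0 : ℤ_[p]) * ρ) ^ wt l * v 0 l := by
        intro l
        have h1 := hc 1 l
        have h2 : ((μ 0 ^ wt l * v 0 l - μ 1 ^ wt l * v 1 l : ℤ) : ZMod (p ^ k)) = 0 := by
          rw [ZMod.intCast_zmod_eq_zero_iff_dvd]
          exact_mod_cast h1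
        have h3 := congrArg (PadicInt.toZModPow (p := p) k) hρ
        rw [map_mul, map_intCast, map_one] at h3
        rw [map_mul, map_intCast, mul_pow]
        push_cast at h2
        have h4 : ((μ 1 : ℤ) : ZMod (p ^ k)) ^ wt l * PadicInt.toZModPow k ρ ^ wt l = 1 := by
          rw [← mul_pow, h3, one_pow]
        linear_combination (-(v 1 l : ZMod (p ^ k))) * h4 -
          (PadicInt.toZModPow k ρ ^ wt l) * h2
      have hlog : plog p (((μ 0 : ℤ_[p]) * ρ : ℤ_[p]) : ℚ_[p]) =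
          plog p ((μ 0 : ℤ) : ℚ_[p]) - plog p ((μ 1 : ℤ) : ℚ_[p]) := by
        have h1 : ((((μ 0 : ℤ_[p]) * ρ : ℤ_[p]) : ℚ_[p])) * ((μ 1 : ℤ) : ℚ_[p]) =
            ((μ 0 : ℤ) : ℚ_[p]) := by
          have h2 := congrArg (Subtype.val : ℤ_[p] → ℚ_[p]) hρ
          push_cast at h2 ⊢
          have h3 : ((μ 1 : ℤ) : ℚ_[p]) * (ρ : ℚ_[p]) = 1 := h2
          linear_combination ((μ 0 : ℤ) : ℚ_[p]) * h3
        have h2 : ‖((((μ 0 : ℤ_[p]) * ρ : ℤ_[p]) : ℚ_[p]))‖ = 1 := by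
          have h3 := congrArg norm h1
          rwa [norm_mul, hn1, hn1, mul_one] at h3
        have h3 := plog_mul h2 (hn1 1)
        rw [h1] at h3
        linear_combination -h3
      have key := typ_pair hp5 hk hm ht0 ht1 ho0 hμ1 hvc (hh0.hd.some) (hh1.hd.some)
      rw [hlog] at key
      -- norms
      have hε : ((p : ℝ)⁻¹) ^ k ≤ (p : ℝ) ^ 2 * ((p : ℝ)⁻¹) ^ k := by
        have h5 : (0 : ℝ) ≤ ((p : ℝ)⁻¹) ^ k := by positivity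
        have h6 : (1 : ℝ) ≤ (p : ℝ) ^ 2 := one_le_pow₀ hp1.le
        nlinarith
      have hm1 : ‖(m : ℚ_[p]) ^ 2‖ ≤ 1 := by
        rw [norm_pow]
        exact pow_le_one₀ (norm_nonneg _) (Padic.norm_int_le_one (p := p) (m : ℤ))
      have hb0 : ‖(m : ℚ_[p]) ^ 2 * h0 (P (v 0))‖ ≤ (p : ℝ) ^ 2 * ((p : ℝ)⁻¹) ^ k := by
        rw [norm_mul]
        have h5 := small_norm (p := p) hkT hs0 (norm_nonneg _)
        refine le_trans ?_ hε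
        calc ‖(m : ℚ_[p]) ^ 2‖ * ‖h0 (P (v 0))‖ ≤ 1 * ((p : ℝ)⁻¹) ^ k :=
              mul_le_mul hm1 h5 (norm_nonneg _) zero_le_one
          _ = _ := one_mul _
      have hb1 : ‖(m : ℚ_[p]) ^ 2 * h1 (P (v 1))‖ ≤ (p : ℝ) ^ 2 * ((p : ℝ)⁻¹) ^ k := by
        rw [norm_mul]
        have h5 := small_norm (p := p) hkT hs1 (norm_nonneg _)
        refine le_trans ?_ hε
        calc ‖(m : ℚ_[p]) ^ 2‖ * ‖h1 (P (v 1))‖ ≤ 1 * ((p : ℝ)⁻¹) ^ k :=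
              mul_le_mul hm1 h5 (norm_nonneg _) zero_le_one
          _ = _ := one_mul _
      have hb2 : ‖(m : ℚ_[p]) ^ 2 * (plog p ((μ 0 : ℤ) : ℚ_[p]) - plog p ((μ 1 : ℤ) : ℚ_[p]))‖ ≤
          (p : ℝ) ^ 2 * ((p : ℝ)⁻¹) ^ k := by
        have e1 : (m : ℚ_[p]) ^ 2 * (plog p ((μ 0 : ℤ) : ℚ_[p]) - plog p ((μ 1 : ℤ) : ℚ_[p])) =
            ((m : ℚ_[p]) ^ 2 * h0 (P (v 0)) - (m : ℚ_[p]) ^ 2 * h1 (P (v 1))) -
            ((m : ℚ_[p]) ^ 2 * h0 (P (v 0)) - (m : ℚ_[p]) ^ 2 * h1 (P (v 1)) -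
            (m : ℚ_[p]) ^ 2 * (plog p ((μ 0 : ℤ) : ℚ_[p]) - plog p ((μ 1 : ℤ) : ℚ_[p]))) := by
          ring
        rw [e1, sub_eq_add_neg]
        refine (IsUltrametricDist.norm_add_le_max _ _).trans (max_le ?_ (by rwa [norm_neg]))
        rw [sub_eq_add_neg]
        exact (IsUltrametricDist.norm_add_le_max _ _).trans (max_le hb0 (by rwa [norm_neg]))
      have h2 : ‖((μ 0 : ℤ) : ℚ_[p]) - ((μ 1 : ℤ) : ℚ_[p])‖ ≤ (p : ℝ)⁻¹ := by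
        have h3 : (p : ℤ_[p]) ∣ ((μ 0 : ℤ_[p]) - (μ 1 : ℤ_[p])) := by
          have := dvd_sub (hμp 0) (hμp 1)
          rwa [sub_sub_sub_cancel_right] at this
        obtain ⟨z, hz⟩ := h3
        have h4 : ‖((μ 0 : ℤ_[p]) - (μ 1 : ℤ_[p]))‖ ≤ (p : ℝ)⁻¹ := by
          rw [hz, norm_mul, PadicInt.norm_p]
          have h5 := PadicInt.norm_le_one z
          have h6 : (0 : ℝ) ≤ (p : ℝ)⁻¹ := by positivity
          nlinarith
        exact h4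
      rw [norm_mul, norm_plog_sub (by omega) (hn1 0) (hn1 1) h2] at hb2
      have h5 := int_norm_ge hcon
      push_cast at h5
      have h6 : ((p : ℝ)⁻¹) ^ e ≤ ‖(m : ℚ_[p]) ^ 2‖ := by
        have h7 : ¬ (p : ℤ) ^ (e + 1) ∣ ((m ^ 2 : ℕ) : ℤ) := by
          intro h8
          exact he (by exact_mod_cast h8)
        have h8 := int_norm_ge h7
        push_cast at h8
        exact h8
      have h7 : ((p : ℝ)⁻¹) ^ e * ((p : ℝ)⁻¹) ^ a ≤ (p : ℝ) ^ 2 * ((p : ℝ)⁻¹) ^ k :=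
        (mul_le_mul h6 h5 (by positivity) (norm_nonneg _)).trans hb2
      have h8 : (p : ℝ) ^ k ≤ (p : ℝ) ^ (e + a + 2) := by
        have h9 := mul_le_mul_of_nonneg_left h7
          (by positivity : (0 : ℝ) ≤ (p : ℝ) ^ k * (p : ℝ) ^ (e + a))
        have e1 : (p : ℝ) ^ k * (p : ℝ) ^ (e + a) * (((p : ℝ)⁻¹) ^ e * ((p : ℝ)⁻¹) ^ a) =
            (p : ℝ) ^ k := by
          have e4 : ((p : ℝ)⁻¹) ^ e * ((p : ℝ)⁻¹) ^ a = ((p : ℝ)⁻¹) ^ (e + a) :=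
            (pow_add _ _ _).symm
          have e5 : (p : ℝ) ^ (e + a) * ((p : ℝ)⁻¹) ^ (e + a) = 1 := by
            rw [← mul_pow, mul_inv_cancel₀ hp0.ne', one_pow]
          rw [e4, mul_assoc, e5, mul_one]
        have e2 : (p : ℝ) ^ k * (p : ℝ) ^ (e + a) * ((p : ℝ) ^ 2 * ((p : ℝ)⁻¹) ^ k) =
            (p : ℝ) ^ (e + a + 2) := by
          have e3 : (p : ℝ) ^ k * ((p : ℝ)⁻¹) ^ k = 1 := by
            rw [← mul_pow, mul_inv_cancel₀ hp0.ne', one_pow]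
          calc _ = ((p : ℝ) ^ k * ((p : ℝ)⁻¹) ^ k) * ((p : ℝ) ^ (e + a) * (p : ℝ) ^ 2) := by ring
            _ = _ := by rw [e3, one_mul, ← pow_add]
        rw [e1, e2] at h9
        exact h9
      have h10 := pow_lt_pow_right₀ hp1 (show e + a + 2 < k by omega)
      linarith)
  rw [pow_one, pow_one] at main
  refine main.trans (le_of_eq ?_)
  ring

end Pool.Agent.K3h2.AP
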