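import Pool.Agent.K3h2.AP.Lim

/-!
# The number of exceptional integral points
-/

set_option autoImplicit false

namespace Pool.Agent.K3h2.AP

open Finset Pool.Agent.Y732 WeierstrassCurve Filter Topology

/-- the point is degenerate, or `m P` is not nonsingular modulo all primes, or its height is small
for a prime of `S` -/
def Ex (m : ℕ) (S : Finset ℕ) (T₀ : ℕ → ℕ) (v : Fin 3 → ℤ) : Prop :=
  (cv v).Δ = 0 ∨ (¬ ∃ d, Typ m d v) ∨ ∃ p ∈ S, ∃ hp : Fact p.Prime, @Exc p hp (T₀ p) v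

open scoped Classical in
/-- the points of a given type -/
lemma card_type {S : Finset ℕ} (hS : ∀ p ∈ S, p.Prime ∧ 5 ≤ p) {m d : ℕ} (hm : 1 ≤ m)
    (H : Fin 3 → ℕ) {T₀ : ℕ → ℕ} (hT0 : ∀ p ∈ S, 0 < T₀ p) (hT : ∀ p ∈ S, ∀ l, T₀ p ≤ sd H l) :
    (((box H).filter fun v => Typ m d v ∧
      ∃ p ∈ S, ∃ hp : Fact p.Prime, @Exc p hp (T₀ p) v).card : ℝ) ≤
      8 * m ^ 2 * (∑ p ∈ S, (p : ℝ) ^ 4 / T₀ p) * (box H).card := by
  have h0 : ∀ p ∈ S, (((box H).filter fun v => Typ m d v ∧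
      ∃ hp : Fact p.Prime, @Exc p hp (T₀ p) v).card : ℝ) ≤
      8 * m ^ 2 * ((p : ℝ) ^ 4 / T₀ p) * (box H).card := by
    intro p hp
    have hpf : Fact p.Prime := ⟨(hS p hp).1⟩
    have h1 := typ_count (p := p) (hS p hp).2 (d := d) hm (fun l => -(H l : ℤ)) (sd H)
      ((box H).filter fun v => Typ m d v ∧ ∃ hp : Fact p.Prime, @Exc p hp (T₀ p) v) (by
        intro v hv l
        have h2 := mem_box.1 (mem_filter.1 hv).1 l
        refine ⟨h2.1, ?_⟩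
        have h3 := h2.2
        unfold sd
        push_cast
        linarith) (hT p hp) (by
        intro v hv
        obtain ⟨-, h2, hp', h3⟩ := mem_filter.1 hv
        exact ⟨h2, h3⟩)
    rw [← card_box] at h1
    have hT' : (0 : ℝ) < T₀ p := by exact_mod_cast hT0 p hp
    have h2 : ((((box H).filter fun v => Typ m d v ∧
      ∃ hp : Fact p.Prime, @Exc p hp (T₀ p) v).card : ℝ)) * T₀ p ≤
        8 * m ^ 2 * p ^ 4 * (box H).card := by
      exact_mod_cast h1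
    rw [mul_div_assoc', div_mul_eq_mul_div, le_div_iff₀ hT']
    exact h2
  have h1 : ((box H).filter fun v => Typ m d v ∧
      ∃ p ∈ S, ∃ hp : Fact p.Prime, @Exc p hp (T₀ p) v) ⊆
      S.biUnion fun p => (box H).filter fun v => Typ m d v ∧
        ∃ hp : Fact p.Prime, @Exc p hp (T₀ p) v := by
    intro v hv
    obtain ⟨hv, h1, p, hp, h2⟩ := mem_filter.1 hv
    rw [mem_biUnion]
    exact ⟨p, hp, mem_filter.2 ⟨hv, h1, h2⟩⟩
  have h2 := (card_le_card h1).trans card_biUnion_le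
  have h3 : (((box H).filter fun v => Typ m d v ∧
      ∃ p ∈ S, ∃ hp : Fact p.Prime, @Exc p hp (T₀ p) v).card : ℝ) ≤
      ∑ p ∈ S, (((box H).filter fun v => Typ m d v ∧
        ∃ hp : Fact p.Prime, @Exc p hp (T₀ p) v).card : ℝ) := by exact_mod_cast h2
  refine h3.trans ((sum_le_sum h0).trans (le_of_eq ?_))
  rw [mul_sum, sum_mul]

open scoped Classical in
/-- the exceptional points in terms of all parameters -/
theorem count {L : ℕ} (hL : 2 ≤ L) (t c : ℕ) :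
    ∃ C₁ C K : ℕ, ∀ (N : ℕ) (H : Fin 3 → ℕ), 1 ≤ N → (∀ l, N ≤ H l ∧ H l ≤ N ^ c) →
      ∀ S : Finset ℕ, (∀ p ∈ S, p.Prime ∧ 5 ≤ p) →
      ∀ T₀ : ℕ → ℕ, (∀ p ∈ S, 0 < T₀ p) → (∀ p ∈ S, ∀ l, T₀ p ≤ sd H l) →
      (((box H).filter fun v => Ex (mul L (3 * t + 5)) S T₀ v).card : ℝ) ≤
        ((C₁ + 3 * L : ℕ) / (N : ℝ) + 3 * L / 2 ^ (t + 1) + 2 / L +
          2 * ((1 + (Nat.log 2 (1 * N ^ c) + 1 : ℕ)) / (N : ℝ)) +
          8 * (mul L (3 * t + 5)) ^ 2 * (∑ p ∈ S, (p : ℝ) ^ 4 / T₀ p) *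
            ((Nat.log 2 (C * N ^ K) + 1 : ℕ) ^ (L + 1))) * (box H).card := by
  set m := mul L (3 * t + 5) with hmdef
  have hm : 1 ≤ m := mul_pos' _ _
  obtain ⟨C, K, hCK⟩ := poly_bound (TP m)
  refine ⟨(∑ l, (cvP.Δ).degreeOf l) + (∑ l, (TP m).degreeOf l) +
    ∑ l, (MvPolynomial.X (R := ℤ) (2 : Fin 3)).degreeOf l, C, c * K, ?_⟩
  intro N H hN hH S hS T₀ hT0 hT
  have hN0 : (0 : ℝ) < N := by exact_mod_cast hN
  have hHN : ∀ l, N ≤ H l := fun l => (hH l).1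
  set M := C * N ^ (c * K) with hM
  set Sm := (Icc 1 M).filter fun d : ℕ => ∀ q : ℕ, q.Prime → q ∣ d → q ≤ L with hSm
  set B1 := (box H).filter fun v => MvPolynomial.eval v cvP.Δ = 0 with hB1
  set B2 := (box H).filter fun v => MvPolynomial.eval v (TP m) = 0 with hB2
  set B5 := (box H).filter fun v => MvPolynomial.eval v (MvPolynomial.X (R := ℤ) (2 : Fin 3)) = 0
    with hB5
  set B3 := (box H).filter fun v => ∃ ℓ : ℕ, ℓ.Prime ∧ ℓ ≤ L ∧ (ℓ : ℤ) ^ (3 * t + 5) ∣ Dd v with hB3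
  set B4 := (box H).filter fun v => v 2 ≠ 0 ∧ ∃ ℓ : ℕ, ℓ.Prime ∧ L < ℓ ∧ (ℓ : ℤ) ∣ 2 * v 2 ∧
        (ℓ : ℤ) ∣ 3 * v 1 ^ 2 + v 0 with hB4
  set E : Finset (Fin 3 → ℤ) := Sm.biUnion fun d => (box H).filter fun v => Typ m d v ∧
    ∃ p ∈ S, ∃ hp : Fact p.Prime, @Exc p hp (T₀ p) v with hE
  have hsub : ((box H).filter fun v => Ex m S T₀ v) ⊆ ((((B1 ∪ B2) ∪ B5) ∪ B3) ∪ B4) ∪ E := by
    intro v hv
    obtain ⟨hvb, hex⟩ := mem_filter.1 hv
    by_cases k1 : v ∈ B1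
    · simp only [mem_union]
      tauto
    by_cases k2 : v ∈ B2
    · simp only [mem_union]
      tauto
    by_cases k5 : v ∈ B5
    · simp only [mem_union]
      tauto
    by_cases k3 : v ∈ B3
    · simp only [mem_union]
      tauto
    by_cases k4 : v ∈ B4
    · simp only [mem_union]
      tauto
    rw [hB1, mem_filter, disc_eval] at k1
    rw [hB2, mem_filter, TP_eval] at k2
    rw [hB5, mem_filter, MvPolynomial.eval_X] at k5
    rw [hB3, mem_filter] at k3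
    rw [hB4, mem_filter] at k4
    have hD : (cv v).Δ ≠ 0 := fun h => k1 ⟨hvb, h⟩
    have hTm : T (cv v) (v 1) (v 2) 1 m 2 ≠ 0 := fun h => k2 ⟨hvb, h⟩
    have hy : v 2 ≠ 0 := fun h => k5 ⟨hvb, h⟩
    obtain ⟨d, hd0, hd1, hd2, hd3⟩ := typ_of (L := L) (k := 3 * t + 5) hD hTm
      (fun ℓ hℓ hle hdv => k3 ⟨hvb, ℓ, hℓ, hle, hdv⟩)
      (fun ℓ hℓ hlt hdv => k4 ⟨hvb, hy, ℓ, hℓ, hlt, hdv.1, hdv.2⟩)
    rw [mem_union]
    right
    rw [hE, mem_biUnion]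
    refine ⟨d, ?_, mem_filter.2 ⟨hvb, hd1,
      (hex.resolve_left hD).resolve_left (fun hcon => hcon ⟨d, hd1⟩)⟩⟩
    rw [hSm, mem_filter, mem_Icc]
    refine ⟨⟨hd0, ?_⟩, fun q hq hqd => hd3 q hq hqd⟩
    have h1 := hCK (N ^ c) v (Nat.one_le_pow _ _ hN) (by
      intro l
      have h2 := mem_box.1 hvb l
      have h3 : ((H l : ℕ) : ℤ) ≤ ((N ^ c : ℕ) : ℤ) := by exact_mod_cast (hH l).2
      exact (abs_le.2 h2).trans h3)
    rw [TP_eval] at h1
    have h2 : (d : ℤ) ≤ |T (cv v) (v 1) (v 2) 1 m 2| :=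
      Int.le_of_dvd (abs_pos.2 hTm) ((dvd_abs _ _).2 hd2)
    have h3 := h2.trans h1
    rw [← pow_mul] at h3
    exact_mod_cast h3
  have c1 := card_zeros (F := cvP.Δ) disc_ne hN hHN
  have c2 := card_zeros (F := TP m) (TP_ne hm) hN hHN
  have c5 := card_zeros (F := MvPolynomial.X (R := ℤ) (2 : Fin 3))
    (MvPolynomial.X_ne_zero _) hN hHN
  have c3 := bad_small H L t
  have c4 := bad_large H hL
  rw [← hB1] at c1
  rw [← hB2] at c2
  rw [← hB5] at c5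
  rw [← hB3] at c3
  rw [← hB4] at c4
  have hsd : (N : ℝ) ≤ sd H 0 := by
    have := hHN 0
    unfold sd
    exact_mod_cast (by omega : N ≤ 2 * H 0 + 1)
  have hlog : Real.log (H 2) ≤ ((Nat.log 2 (1 * N ^ c) + 1 : ℕ) : ℝ) := by
    have hH1 : 1 ≤ H 2 := hN.trans (hHN 2)
    have h1 : Real.log (H 2) ≤ Real.log ((N ^ c : ℕ) : ℝ) := by
      apply Real.log_le_log
      · exact_mod_cast hH1
      · exact_mod_cast (hH 2).2
    have h2 : ((N ^ c : ℕ) : ℝ) ≤ ((2 ^ (Nat.log 2 (1 * N ^ c) + 1) : ℕ) : ℝ) := by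
      have := Nat.lt_pow_succ_log_self one_lt_two (1 * N ^ c)
      rw [one_mul] at this ⊢
      exact_mod_cast this.le
    have h3 : Real.log ((N ^ c : ℕ) : ℝ) ≤ Real.log ((2 ^ (Nat.log 2 (1 * N ^ c) + 1) : ℕ) : ℝ) := by
      apply Real.log_le_log _ h2
      have := Nat.one_le_pow c N hN
      exact_mod_cast this
    have h4 : Real.log ((2 ^ (Nat.log 2 (1 * N ^ c) + 1) : ℕ) : ℝ) =
        ((Nat.log 2 (1 * N ^ c) + 1 : ℕ) : ℝ) * Real.log 2 := by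
      rw [Nat.cast_pow, Real.log_pow, Nat.cast_ofNat]
    have h5 : Real.log 2 ≤ 1 := by
      have := Real.log_two_lt_d9
      linarith
    have h6 : (0 : ℝ) ≤ ((Nat.log 2 (1 * N ^ c) + 1 : ℕ) : ℝ) := by positivity
    nlinarith
  have hbc : (0 : ℝ) ≤ (box H).card := by positivity
  have c3' : (B3.card : ℝ) ≤ (3 * L / 2 ^ (t + 1) + (3 * L) / N) * (box H).card := by
    refine c3.trans (mul_le_mul_of_nonneg_right ?_ hbc)
    have h1 : 1 / (sd H 0 : ℝ) ≤ 1 / N := one_div_le_one_div_of_le hN0 hsd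
    have h2 : (0 : ℝ) ≤ 3 * L := by positivity
    have h3 := mul_le_mul_of_nonneg_left (add_le_add_right h1 (1 / (2 : ℝ) ^ (t + 1))) h2
    refine h3.trans (le_of_eq ?_)
    ring
  have c4' : (B4.card : ℝ) ≤ (2 / L + 2 * ((1 + (Nat.log 2 (1 * N ^ c) + 1 : ℕ)) / (N : ℝ))) *
      (box H).card := by
    refine c4.trans (mul_le_mul_of_nonneg_right ?_ hbc)
    have h1 : (1 + Real.log (H 2)) / (sd H 0 : ℝ) ≤
        ((1 + (Nat.log 2 (1 * N ^ c) + 1 : ℕ)) / (N : ℝ)) := by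
      have h0 : (0 : ℝ) ≤ Real.log (H 2) := Real.log_natCast_nonneg _
      exact div_le_div₀ (by positivity) (by linarith) hN0 hsd
    have h3 := mul_le_mul_of_nonneg_left (add_le_add_right h1 (1 / (L : ℝ))) (by norm_num : (0:ℝ) ≤ 2)
    refine h3.trans (le_of_eq ?_)
    ring
  have cE : (E.card : ℝ) ≤ 8 * (m : ℝ) ^ 2 * (∑ p ∈ S, (p : ℝ) ^ 4 / T₀ p) *
            ((Nat.log 2 M + 1 : ℕ) ^ (L + 1)) * (box H).card := by
    have h1 : (E.card : ℝ) ≤ ∑ d ∈ Sm, (((box H).filter fun v => Typ m d v ∧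
        ∃ p ∈ S, ∃ hp : Fact p.Prime, @Exc p hp (T₀ p) v).card : ℝ) := by
      exact_mod_cast card_biUnion_le
    refine h1.trans ((sum_le_sum fun d _ => card_type hS hm H hT0 hT).trans ?_)
    rw [sum_const, nsmul_eq_mul]
    have h2 : (Sm.card : ℝ) ≤ ((Nat.log 2 M + 1 : ℕ) : ℝ) ^ (L + 1) := by
      exact_mod_cast card_smooth L M
    have h3 : (0 : ℝ) ≤ 8 * (m : ℝ) ^ 2 * (∑ p ∈ S, (p : ℝ) ^ 4 / T₀ p) * (box H).card := by
      positivity
    refine (mul_le_mul_of_nonneg_right h2 h3).trans (le_of_eq ?_)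
    ring
  have htot : (((box H).filter fun v => Ex m S T₀ v).card : ℝ) ≤
      B1.card + B2.card + B5.card + B3.card + B4.card + E.card := by
    have h1 := card_le_card hsub
    have h2 := card_union_le ((((B1 ∪ B2) ∪ B5) ∪ B3) ∪ B4) E
    have h3 := card_union_le (((B1 ∪ B2) ∪ B5) ∪ B3) B4
    have h4 := card_union_le ((B1 ∪ B2) ∪ B5) B3
    have h5 := card_union_le (B1 ∪ B2) B5
    have h6 := card_union_le B1 B2
    exact_mod_cast (by omega : ((box H).filter fun v => Ex m S T₀ v).card ≤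
      B1.card + B2.card + B5.card + B3.card + B4.card + E.card)
  refine htot.trans ?_
  have hsum := add_le_add (add_le_add (add_le_add (add_le_add (add_le_add c1 c2) c5) c3') c4') cE
  refine hsum.trans (le_of_eq ?_)
  push_cast
  ring

end Pool.Agent.K3h2.AP
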