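import Pool.Agent.K3h2.AP.Cub

/-!
# Counting: the points for which `typ_of` does not apply
-/

set_option autoImplicit false

namespace Pool.Agent.K3h2.AP

open Finset Pool.Agent.Y732 WeierstrassCurve

/-- counting one coordinate after the other -/
lemma card_fib (H : Fin 3 → ℕ) (Q : (Fin 3 → ℤ) → Prop) [DecidablePred Q]
    [∀ x y, DecidablePred fun A => Q ![A, x, y]] (Y : Finset ℤ) {b : ℝ}
    (hY : ∀ v ∈ box H, Q v → v 2 ∈ Y)
    (hb : ∀ x y, (((Icc (-(H 0 : ℤ)) (H 0 : ℤ)).filter fun A => Q ![A, x, y]).card : ℝ) ≤ b) :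
    (((box H).filter Q).card : ℝ) ≤ b * sd H 1 * Y.card := by
  set I : Finset (ℤ × ℤ) := (Icc (-(H 1 : ℤ)) (H 1 : ℤ)) ×ˢ Y with hI
  have h1 := card_eq_sum_card_fiberwise (s := (box H).filter Q) (t := I)
    (f := fun v : Fin 3 → ℤ => (v 1, v 2)) (by
      intro v hv
      rw [mem_coe, mem_filter] at hv
      rw [mem_coe, hI, mem_product]
      exact ⟨mem_Icc.2 (mem_box.1 hv.1 1), hY v hv.1 hv.2⟩)
  have h2 : ∀ z ∈ I, ((((box H).filter Q).filter fun v : Fin 3 → ℤ => (v 1, v 2) = z).card : ℝ) ≤ b := by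
    rintro ⟨x, y⟩ -
    refine le_trans ?_ (hb x y)
    norm_cast
    apply card_le_card_of_injOn (fun v : Fin 3 → ℤ => v 0)
    · intro v hv
      rw [mem_coe, mem_filter, mem_filter] at hv
      obtain ⟨⟨hv1, hv2⟩, hv3⟩ := hv
      simp only [Prod.mk.injEq] at hv3
      obtain ⟨rfl, rfl⟩ := hv3
      rw [mem_coe, mem_filter]
      refine ⟨mem_Icc.2 (mem_box.1 hv1 0), ?_⟩
      have e1 : (![v 0, v 1, v 2] : Fin 3 → ℤ) = v := by
        ext l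
        fin_cases l <;> rfl
      rw [e1]
      exact hv2
    · intro v hv w hw hvw
      rw [mem_coe, mem_filter] at hv hw
      have h3 := hv.2.trans hw.2.symm
      simp only [Prod.mk.injEq] at h3
      ext l
      fin_cases l
      · exact hvw
      · exact h3.1
      · exact h3.2
  rw [h1]
  push_cast
  refine (sum_le_sum h2).trans ?_
  rw [sum_const, nsmul_eq_mul, hI, card_product, card_side]
  unfold sd
  push_cast
  apply le_of_eq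
  ring

lemma box_real (H : Fin 3 → ℕ) :
    ((box H).card : ℝ) = (sd H 0 : ℝ) * sd H 1 * sd H 2 := by
  rw [card_box, Fin.prod_univ_three]
  push_cast
  ring

open scoped Classical in
/-- the discriminant is divisible by a high power of a small prime -/
lemma bad_small (H : Fin 3 → ℕ) (L t : ℕ) :
    (((box H).filter fun v => ∃ ℓ : ℕ, ℓ.Prime ∧ ℓ ≤ L ∧ (ℓ : ℤ) ^ (3 * t + 5) ∣ Dd v).card : ℝ) ≤
      3 * L * (1 / 2 ^ (t + 1) + 1 / sd H 0) * (box H).card := by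
  have h0 : ∀ ℓ ∈ (Icc 1 L).filter Nat.Prime,
      (((box H).filter fun v => (ℓ : ℤ) ^ (3 * t + 5) ∣ Dd v).card : ℝ) ≤
        3 * (1 / 2 ^ (t + 1) + 1 / sd H 0) * (box H).card := by
    intro ℓ hℓ
    rw [mem_filter, mem_Icc] at hℓ
    have : Fact ℓ.Prime := ⟨hℓ.2⟩
    have h1 := card_fib H (fun v => (ℓ : ℤ) ^ (3 * t + 5) ∣ Dd v) (Icc (-(H 2 : ℤ)) (H 2 : ℤ))
      (b := 3 * ((sd H 0 : ℝ) / 2 ^ (t + 1) + 1))
      (fun v hv _ => mem_Icc.2 (mem_box.1 hv 2)) (by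
        intro x y
        have h2 := card_classes (H 0) (r := ℓ ^ (t + 1)) (pow_pos hℓ.2.pos _)
          ((Icc (-(H 0 : ℤ)) (H 0 : ℤ)).filter fun A => (ℓ : ℤ) ^ (3 * t + 5) ∣ Dd ![A, x, y])
          (filter_subset _ _) 3 (cub_classes x y t _ (fun A hA => (mem_filter.1 hA).2))
        refine h2.trans ?_
        push_cast
        have h3 : (2 : ℝ) ^ (t + 1) ≤ (ℓ : ℝ) ^ (t + 1) := by
          apply pow_le_pow_left₀ (by norm_num)
          exact_mod_cast hℓ.2.two_le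
        unfold sd
        push_cast
        gcongr)
    refine h1.trans ?_
    rw [card_side, box_real]
    have h3 : (0 : ℝ) < sd H 0 := by
      unfold sd
      positivity
    have h4 : ((2 * H 2 + 1 : ℕ) : ℝ) = sd H 2 := rfl
    rw [h4]
    apply le_of_eq
    field_simp
  have h1 : ((box H).filter fun v => ∃ ℓ : ℕ, ℓ.Prime ∧ ℓ ≤ L ∧ (ℓ : ℤ) ^ (3 * t + 5) ∣ Dd v) ⊆
      ((Icc 1 L).filter Nat.Prime).biUnion
        fun ℓ => (box H).filter fun v => (ℓ : ℤ) ^ (3 * t + 5) ∣ Dd v := by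
    intro v hv
    rw [mem_filter] at hv
    obtain ⟨hv, ℓ, h1, h2, h3⟩ := hv
    rw [mem_biUnion]
    exact ⟨ℓ, mem_filter.2 ⟨mem_Icc.2 ⟨h1.one_le, h2⟩, h1⟩, mem_filter.2 ⟨hv, h3⟩⟩
  have h2 := (card_le_card h1).trans card_biUnion_le
  have h3 : (((box H).filter fun v => ∃ ℓ : ℕ, ℓ.Prime ∧ ℓ ≤ L ∧ (ℓ : ℤ) ^ (3 * t + 5) ∣ Dd v).card : ℝ) ≤
      ∑ ℓ ∈ (Icc 1 L).filter Nat.Prime,
        (((box H).filter fun v => (ℓ : ℤ) ^ (3 * t + 5) ∣ Dd v).card : ℝ) := by exact_mod_cast h2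
  refine h3.trans ((sum_le_sum h0).trans ?_)
  rw [sum_const, nsmul_eq_mul]
  have h4 : (((Icc 1 L).filter Nat.Prime).card : ℝ) ≤ L := by
    have := card_filter_le (Icc 1 L) Nat.Prime
    rw [Nat.card_Icc] at this
    exact_mod_cast (by omega : ((Icc 1 L).filter Nat.Prime).card ≤ L)
  refine (mul_le_mul_of_nonneg_right h4 (by positivity)).trans (le_of_eq ?_)
  ring

open scoped Classical in
/-- the point is singular modulo a large prime -/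
lemma bad_large (H : Fin 3 → ℕ) {L : ℕ} (hL : 2 ≤ L) :
    (((box H).filter fun v => v 2 ≠ 0 ∧ ∃ ℓ : ℕ, ℓ.Prime ∧ L < ℓ ∧ (ℓ : ℤ) ∣ 2 * v 2 ∧
        (ℓ : ℤ) ∣ 3 * v 1 ^ 2 + v 0).card : ℝ) ≤
      2 * (1 / L + (1 + Real.log (H 2)) / sd H 0) * (box H).card := by
  have hs0 : (0 : ℝ) < sd H 0 := by unfold sd; positivity
  have hs1 : (0 : ℝ) < sd H 1 := by unfold sd; positivity
  have hs2 : (0 : ℝ) < sd H 2 := by unfold sd; positivity
  have h0 : ∀ ℓ ∈ Ioc L (H 2),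
      (((box H).filter fun v => (ℓ : ℤ) ∣ v 2 ∧ (ℓ : ℤ) ∣ 3 * v 1 ^ 2 + v 0).card : ℝ) ≤
        ((ℓ : ℝ) ^ 2)⁻¹ * (2 * (box H).card) + (ℓ : ℝ)⁻¹ * (2 * sd H 1 * sd H 2) := by
    intro ℓ hℓ
    rw [mem_Ioc] at hℓ
    have hℓ0 : 0 < ℓ := by omega
    have hℓR : (0 : ℝ) < ℓ := by exact_mod_cast hℓ0
    have h1 := card_fib H (fun v => (ℓ : ℤ) ∣ v 2 ∧ (ℓ : ℤ) ∣ 3 * v 1 ^ 2 + v 0)
      ((Icc (-(H 2 : ℤ)) (H 2 : ℤ)).filter fun y => y ≡ 0 [ZMOD ℓ])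
      (b := (sd H 0 : ℝ) / ℓ + 1)
      (fun v hv hq => mem_filter.2 ⟨mem_Icc.2 (mem_box.1 hv 2), (Int.modEq_zero_iff_dvd).2 hq.1⟩) (by
        intro x y
        refine le_trans ?_ (card_class (H 0) hℓ0 (-(3 * x ^ 2)))
        norm_cast
        refine card_le_card fun A hA => ?_
        rw [mem_filter] at hA ⊢
        refine ⟨hA.1, ?_⟩
        have h2 : (ℓ : ℤ) ∣ 3 * x ^ 2 + A := hA.2.2
        rw [Int.modEq_comm, Int.modEq_iff_dvd]
        refine h2.trans (dvd_of_eq ?_)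
        ring)
    refine h1.trans ?_
    have h2 := card_class (H 2) hℓ0 0
    have h4 : ((2 * H 2 + 1 : ℕ) : ℝ) = sd H 2 := rfl
    rw [h4] at h2
    have h5 : (ℓ : ℝ) ≤ sd H 2 := by
      unfold sd
      exact_mod_cast (by omega : ℓ ≤ 2 * H 2 + 1)
    have h6 : (1 : ℝ) ≤ (sd H 2 : ℝ) / ℓ := by
      rw [le_div_iff₀ hℓR]
      linarith
    have h3 : (((Icc (-(H 2 : ℤ)) (H 2 : ℤ)).filter fun y => y ≡ 0 [ZMOD ℓ]).card : ℝ) ≤
        2 * ((sd H 2 : ℝ) / ℓ) := by linarith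
    refine (mul_le_mul_of_nonneg_left h3 (by positivity)).trans (le_of_eq ?_)
    rw [box_real]
    field_simp
  have h1 : ((box H).filter fun v => v 2 ≠ 0 ∧ ∃ ℓ : ℕ, ℓ.Prime ∧ L < ℓ ∧ (ℓ : ℤ) ∣ 2 * v 2 ∧
        (ℓ : ℤ) ∣ 3 * v 1 ^ 2 + v 0) ⊆
      (Ioc L (H 2)).biUnion
        fun ℓ => (box H).filter fun v => (ℓ : ℤ) ∣ v 2 ∧ (ℓ : ℤ) ∣ 3 * v 1 ^ 2 + v 0 := by
    intro v hv
    rw [mem_filter] at hv
    obtain ⟨hv, hy, ℓ, h1, h2, h3, h4⟩ := hv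
    rw [mem_biUnion]
    have h5 : (ℓ : ℤ) ∣ v 2 := by
      rcases (Nat.prime_iff_prime_int.1 h1).dvd_or_dvd h3 with h | h
      · exfalso
        have := Int.le_of_dvd (by norm_num) h
        omega
      · exact h
    refine ⟨ℓ, mem_Ioc.2 ⟨h2, ?_⟩, mem_filter.2 ⟨hv, h5, h4⟩⟩
    have h6 := Int.le_of_dvd (abs_pos.2 hy) ((dvd_abs _ _).2 h5)
    have h7 : |v 2| ≤ H 2 := abs_le.2 (mem_box.1 hv 2)
    omega
  have h2 := (card_le_card h1).trans card_biUnion_le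
  have h3 : (((box H).filter fun v => v 2 ≠ 0 ∧ ∃ ℓ : ℕ, ℓ.Prime ∧ L < ℓ ∧ (ℓ : ℤ) ∣ 2 * v 2 ∧
        (ℓ : ℤ) ∣ 3 * v 1 ^ 2 + v 0).card : ℝ) ≤
      ∑ ℓ ∈ Ioc L (H 2),
        (((box H).filter fun v => (ℓ : ℤ) ∣ v 2 ∧ (ℓ : ℤ) ∣ 3 * v 1 ^ 2 + v 0).card : ℝ) := by
    exact_mod_cast h2
  refine h3.trans ((sum_le_sum h0).trans ?_)
  rw [sum_add_distrib, ← sum_mul, ← sum_mul]
  have h4 : (∑ ℓ ∈ Ioc L (H 2), ((ℓ : ℝ) ^ 2)⁻¹) ≤ 1 / L := by
    by_cases hLH : L ≤ H 2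
    · have h5 := sum_Ioc_inv_sq_le_sub (α := ℝ) (k := L) (n := H 2) (by omega) hLH
      refine h5.trans ?_
      rw [one_div]
      have : (0 : ℝ) ≤ ((H 2 : ℕ) : ℝ)⁻¹ := by positivity
      linarith
    · rw [Ioc_eq_empty (by omega), sum_empty]
      positivity
  have h5 : (∑ ℓ ∈ Ioc L (H 2), (ℓ : ℝ)⁻¹) ≤ 1 + Real.log (H 2) := by
    have h6 := harmonic_le_one_add_log (H 2)
    refine le_trans ?_ h6
    rw [harmonic_eq_sum_Icc]
    push_cast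
    apply sum_le_sum_of_subset_of_nonneg
    · intro i hi
      rw [mem_Ioc] at hi
      rw [mem_Icc]
      omega
    · intro i _ _
      positivity
  have h6 : (0 : ℝ) ≤ 2 * (box H).card := by positivity
  have h7 : (0 : ℝ) ≤ 2 * (sd H 1 : ℝ) * sd H 2 := by positivity
  refine (add_le_add (mul_le_mul_of_nonneg_right h4 h6)
    (mul_le_mul_of_nonneg_right h5 h7)).trans (le_of_eq ?_)
  rw [box_real]
  field_simp

end Pool.Agent.K3h2.AP
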