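import Pool.Agent.K3h2.AP.Red

/-!
# A bounded multiple of a point is nonsingular modulo a prime; the multiples of such a point
-/

set_option autoImplicit false

namespace Pool.Agent.K3h2.AP

open Pool.Agent.Y732 WeierstrassCurve

variable {ℓ : ℕ} [hℓ : Fact ℓ.Prime]

lemma norm_dvd {z : ℤ} {k : ℕ} : ‖(z : ℚ_[ℓ])‖ ≤ ((ℓ : ℝ)⁻¹) ^ k ↔ (ℓ : ℤ) ^ k ∣ z := by
  have h := Padic.norm_int_le_pow_iff_dvd (p := ℓ) z k
  rw [zpow_neg, zpow_natCast, ← inv_pow] at h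
  rw [h]

lemma norm_dvd1 {z : ℤ} : ‖(z : ℚ_[ℓ])‖ < 1 ↔ (ℓ : ℤ) ∣ z := Padic.norm_intCast_lt_one_iff

lemma norm_eq1 {z : ℤ} (h : ¬ (ℓ : ℤ) ∣ z) : ‖(z : ℚ_[ℓ])‖ = 1 :=
  le_antisymm (ni z) (not_lt.1 fun h1 => h (norm_dvd1.1 h1))

lemma zmod_close {k : ℕ} {x y : ℚ_[ℓ]} (hx : ‖x‖ ≤ 1) (hy : ‖y‖ ≤ 1)
    (h : PadicInt.toZModPow k (⟨x, hx⟩ : ℤ_[ℓ]) = PadicInt.toZModPow k (⟨y, hy⟩ : ℤ_[ℓ])) :
    ‖x - y‖ ≤ ((ℓ : ℝ)⁻¹) ^ k := by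
  set u : ℤ_[ℓ] := ⟨x, hx⟩ with hu
  set w : ℤ_[ℓ] := ⟨y, hy⟩ with hw
  have h1 : PadicInt.toZModPow k (u - w) = 0 := by
    rw [map_sub, h, sub_self]
  have h2 : (u - w) ∈ RingHom.ker (PadicInt.toZModPow (p := ℓ) k) := h1
  rw [PadicInt.ker_toZModPow, ← PadicInt.norm_le_pow_iff_mem_span_pow, zpow_neg, zpow_natCast,
    ← inv_pow] at h2
  exact h2

/-- one of the first `ℓ ^ (2 k) + 1` multiples of a point is nonsingular modulo `ℓ` -/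
theorem finite_index {A B : ℤ} {k : ℕ} (hD : ¬ (ℓ : ℤ) ^ k ∣ 4 * (4 * A ^ 3 + 27 * B ^ 2))
    (Q : (WQ (Wc A B)).Point) : ∃ n, 1 ≤ n ∧ n ≤ (ℓ ^ k) ^ 2 + 1 ∧ ¬ Sg ℓ A B (n • Q) := by
  by_contra hcon
  push Not at hcon
  have : NeZero (ℓ ^ k) := ⟨(pow_pos hℓ.out.pos k).ne'⟩
  choose! x y h he hx hy h2 h3 using hcon
  classical
  have hx' : ∀ n, 1 ≤ n ∧ n ≤ (ℓ ^ k) ^ 2 + 1 → ‖(x n : ℚ_[ℓ])‖ ≤ 1 := fun n hn => hx n hn.1 hn.2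
  have hy' : ∀ n, 1 ≤ n ∧ n ≤ (ℓ ^ k) ^ 2 + 1 → ‖(y n : ℚ_[ℓ])‖ ≤ 1 := fun n hn => hy n hn.1 hn.2
  let f : ℕ → ZMod (ℓ ^ k) × ZMod (ℓ ^ k) := fun n =>
    if hn : 1 ≤ n ∧ n ≤ (ℓ ^ k) ^ 2 + 1 then
      (PadicInt.toZModPow k (⟨x n, hx' n hn⟩ : ℤ_[ℓ]), PadicInt.toZModPow k (⟨y n, hy' n hn⟩ : ℤ_[ℓ]))
    else 0
  have hcard : (Finset.univ : Finset (ZMod (ℓ ^ k) × ZMod (ℓ ^ k))).card <
      (Finset.Icc 1 ((ℓ ^ k) ^ 2 + 1)).card := by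
    rw [Finset.card_univ, Fintype.card_prod, ZMod.card, Nat.card_Icc]
    rw [pow_two]
    omega
  obtain ⟨n1, hn1, n2, hn2, hne, hf⟩ := Finset.exists_ne_map_eq_of_card_lt_of_maps_to hcard
    (f := f) (fun n _ => Finset.mem_coe.2 (Finset.mem_univ _))
  rw [Finset.mem_Icc] at hn1 hn2
  have main : ∀ n1 n2 : ℕ, (1 ≤ n1 ∧ n1 ≤ (ℓ ^ k) ^ 2 + 1) → (1 ≤ n2 ∧ n2 ≤ (ℓ ^ k) ^ 2 + 1) →
      n1 < n2 → f n1 = f n2 → False := by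
    intro n1 n2 hn1 hn2 hlt hf
    have hd : 1 ≤ n2 - n1 ∧ n2 - n1 ≤ (ℓ ^ k) ^ 2 + 1 := by omega
    simp only [f, dif_pos hn1, dif_pos hn2, Prod.mk.injEq] at hf
    have hsum : n2 • Q + -(n1 • Q) = (n2 - n1) • Q := by
      have : n2 • Q = (n2 - n1) • Q + n1 • Q := by
        rw [← add_nsmul, Nat.sub_add_cancel hlt.le]
      rw [this, add_neg_cancel_right]
    have e1 := he n1 hn1.1 hn1.2
    have e2 := he n2 hn2.1 hn2.2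
    have e3 := he (n2 - n1) hd.1 hd.2
    rw [e1, e2, e3] at hsum
    have hc := close (ℓ := ℓ) (k := k) _ _ _ (hx' n1 hn1) (hy' n1 hn1) (hx' n2 hn2)
      (hx' _ hd) (zmod_close _ _ hf.1.symm) (zmod_close _ _ hf.2.symm) hsum
    exact hD (norm_dvd.1 hc)
  rcases lt_or_gt_of_ne hne with h4 | h4
  · exact main n1 n2 hn1 hn2 h4 hf
  · exact main n2 n1 hn2 hn1 h4 hf.symm

/-- the reduction of a triple, coprime and nonsingular at one prime -/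
lemma triple_mod1 {W : WeierstrassCurve ℤ} {X Y e : ℤ} (heq : OnCurve W X Y e)
    (hc : ¬ ((ℓ : ℤ) ∣ X ∧ (ℓ : ℤ) ∣ e))
    (h : (ℓ : ℤ) ∣ e ∨ ¬ ((ℓ : ℤ) ∣ 2 * Y + W.a₁ * X * e + W.a₃ * e ^ 3 ∧
      (ℓ : ℤ) ∣ W.a₁ * Y * e - (3 * X ^ 2 + 2 * W.a₂ * X * e ^ 2 + W.a₄ * e ^ 4))) :
    (red W (ZMod ℓ)).toJacobian.Nonsingular ![(X : ZMod ℓ), (Y : ZMod ℓ), (e : ZMod ℓ)] := by
  have heq' := heq.cast (ZMod ℓ)
  by_cases he : (e : ZMod ℓ) = 0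
  · have hX : (X : ZMod ℓ) ≠ 0 := by
      intro h0
      rw [ZMod.intCast_zmod_eq_zero_iff_dvd] at h0 he
      exact hc ⟨h0, he⟩
    have h2 : (![(X : ZMod ℓ), (Y : ZMod ℓ), (e : ZMod ℓ)] : Fin 3 → ZMod ℓ) 2 = 0 := he
    rw [Jacobian.nonsingular_of_Z_eq_zero h2]
    refine ⟨heq', ?_⟩
    rw [Jacobian.equation_of_Z_eq_zero h2] at heq'
    have h1 : (Y : ZMod ℓ) ^ 2 = (X : ZMod ℓ) ^ 3 := heq'
    by_contra hcon
    push Not at hcon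
    have h3 : (3 : ZMod ℓ) = 0 := by
      rcases mul_eq_zero.1 hcon.1 with h | h
      · exact h
      · exact absurd h (pow_ne_zero 2 hX)
    have h4 : (2 : ZMod ℓ) = 0 := by
      rcases mul_eq_zero.1 hcon.2.1 with h | h
      · exact h
      · exfalso
        have h5 : (X : ZMod ℓ) ^ 3 = 0 := by
          rw [← h1]
          change (Y : ZMod ℓ) = 0 at h
          rw [h]
          ring
        exact hX (pow_eq_zero_iff (by norm_num) |>.1 h5)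
    have : (1 : ZMod ℓ) = 0 := by linear_combination h3 - h4
    exact one_ne_zero this
  · have h2 : (![(X : ZMod ℓ), (Y : ZMod ℓ), (e : ZMod ℓ)] : Fin 3 → ZMod ℓ) 2 ≠ 0 := he
    rw [Jacobian.nonsingular_iff_of_Z_ne_zero h2, Jacobian.eval_polynomialX,
      Jacobian.eval_polynomialY]
    refine ⟨heq', ?_⟩
    by_contra hcon
    push Not at hcon
    rcases h with h3 | h3
    · rw [ZMod.intCast_zmod_eq_zero_iff_dvd] at he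
      exact he h3
    · apply h3
      constructor
      · rw [← ZMod.intCast_zmod_eq_zero_iff_dvd _ ℓ]
        push_cast
        exact hcon.2
      · rw [← ZMod.intCast_zmod_eq_zero_iff_dvd _ ℓ]
        push_cast
        exact hcon.1

end Pool.Agent.K3h2.AP
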