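import Pool.Agent.K3h2.AP.Bad

/-!
# The polynomials which vanish at the degenerate points; powers of logarithms
-/

set_option autoImplicit false

namespace Pool.Agent.K3h2.AP

open Finset Pool.Agent.Y732 WeierstrassCurve Filter Topology

/-- the generic curve -/
noncomputable def cvP : WeierstrassCurve (MvPolynomial (Fin 3) ℤ) :=
  ⟨0, 0, 0, MvPolynomial.X 0,
    MvPolynomial.X 2 ^ 2 - MvPolynomial.X 1 ^ 3 - MvPolynomial.X 0 * MvPolynomial.X 1⟩

lemma cvP_map (v : Fin 3 → ℤ) : cvP.map (MvPolynomial.eval v) = cv v := by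
  ext <;> simp [cvP, cv]

/-- the denominators of the multiples of the generic point -/
noncomputable def TP (m : ℕ) : MvPolynomial (Fin 3) ℤ :=
  T cvP (MvPolynomial.X 1) (MvPolynomial.X 2) 1 m 2

lemma TP_eval (m : ℕ) (v : Fin 3 → ℤ) :
    MvPolynomial.eval v (TP m) = T (cv v) (v 1) (v 2) 1 m 2 := by
  have h := T_map (MvPolynomial.eval v) cvP (MvPolynomial.X 1) (MvPolynomial.X 2) 1 m 2
  rw [cvP_map, MvPolynomial.eval_X, MvPolynomial.eval_X, map_one] at h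
  exact h.symm

lemma TP_ne {m : ℕ} (hm : 1 ≤ m) : TP m ≠ 0 := by
  intro h0
  have h := TP_eval m ![0, 1, 1]
  rw [h0, map_zero] at h
  have e1 : cv ![0, 1, 1] = Wc (0 : ℤ) 0 := by
    ext <;> simp [cv, Wc]
  have e2 : twist (1 : ℤ) (Wc (0 : ℤ) 0) = Wc (0 : ℤ) 0 := by
    ext <;> simp [twist, Wc]
  rw [e1, T_two'] at h
  rw [e2] at h
  have e3 : G (Wc (0 : ℤ) 0) ((![0, 1, 1] : Fin 3 → ℤ) 1) ((![0, 1, 1] : Fin 3 → ℤ) 2) m 2 = m := by
    change J (Wc (0 : ℤ) 0).toJacobian ![1, 1, 1] m 2 = m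
    rw [J_cusp]
    rfl
  rw [e3, one_mul] at h
  have : (m : ℤ) ≠ 0 := by exact_mod_cast (by omega : m ≠ 0)
  exact this h.symm

lemma disc_eval (v : Fin 3 → ℤ) : MvPolynomial.eval v cvP.Δ = (cv v).Δ := by
  rw [← cvP_map, WeierstrassCurve.map_Δ]

lemma disc_ne : cvP.Δ ≠ 0 := by
  intro h0
  have h := disc_eval ![1, 0, 0]
  rw [h0, map_zero] at h
  have e1 : (cv ![1, 0, 0]).Δ = -64 := by
    simp [cv, WeierstrassCurve.Δ, WeierstrassCurve.b₂, WeierstrassCurve.b₄, WeierstrassCurve.b₆,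
      WeierstrassCurve.b₈]
  rw [e1] at h
  norm_num at h

/-- powers of logarithms divided by powers -/
noncomputable def pl (C K r : ℕ) (δ : ℝ) (N : ℕ) : ℝ :=
  ((Nat.log 2 (C * N ^ K) + 1 : ℕ) : ℝ) ^ r / (⌊(N : ℝ) ^ δ⌋₊ : ℝ)

lemma floor_half {x : ℝ} (hx : 1 ≤ x) : x / 2 ≤ (⌊x⌋₊ : ℝ) := by
  have h1 := Nat.lt_floor_add_one x
  have h2 : (1 : ℝ) ≤ (⌊x⌋₊ : ℝ) := by exact_mod_cast Nat.floor_pos.2 hx
  linarith

lemma log_bound (C K : ℕ) {η : ℝ} (hη : 0 < η) {N : ℕ} (hN : 1 ≤ N) :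
    ((Nat.log 2 (C * N ^ K) + 1 : ℕ) : ℝ) ≤ (2 * C + 1 + 2 * K / η) * (N : ℝ) ^ η := by
  have hN1 : (1 : ℝ) ≤ N := by exact_mod_cast hN
  have hNη : (1 : ℝ) ≤ (N : ℝ) ^ η := Real.one_le_rpow hN1 hη.le
  have hlog2 : (1 : ℝ) / 2 < Real.log 2 := by
    have := Real.log_two_gt_d9
    linarith
  by_cases hC : C = 0
  · subst hC
    rw [zero_mul, Nat.log_zero_right]
    have : (0 : ℝ) ≤ 2 * K / η := by positivity
    push_cast
    nlinarith
  have hC1 : (1 : ℝ) ≤ C := by exact_mod_cast Nat.one_le_iff_ne_zero.2 hC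
  have h1 : ((Nat.log 2 (C * N ^ K) : ℕ) : ℝ) ≤ 2 * Real.log (C * N ^ K : ℕ) := by
    refine (Real.natLog_le_logb _ _).trans ?_
    unfold Real.logb
    have h2 : 0 ≤ Real.log ((C * N ^ K : ℕ) : ℝ) := Real.log_natCast_nonneg _
    rw [Nat.cast_ofNat, div_le_iff₀ (by linarith)]
    nlinarith
  have h2 : Real.log (C * N ^ K : ℕ) = Real.log C + K * Real.log N := by
    push_cast
    rw [Real.log_mul (by positivity) (by positivity), Real.log_pow]
  have h3 : Real.log (C : ℝ) ≤ C := (Real.log_le_sub_one_of_pos (by linarith)).trans (by linarith)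
  have h4 : Real.log (N : ℝ) ≤ (N : ℝ) ^ η / η := Real.log_le_rpow_div (by linarith) hη
  have h5 : (K : ℝ) * Real.log N ≤ K * ((N : ℝ) ^ η / η) := mul_le_mul_of_nonneg_left h4 (by positivity)
  push_cast
  calc ((Nat.log 2 (C * N ^ K) : ℕ) : ℝ) + 1 ≤ 2 * (C + K * ((N : ℝ) ^ η / η)) + 1 := by
        rw [h2] at h1
        linarith
    _ ≤ (2 * C + 1) * (N : ℝ) ^ η + 2 * K / η * (N : ℝ) ^ η := by
        have e1 : 2 * (C + K * ((N : ℝ) ^ η / η)) + 1 = (2 * C + 1) * 1 + 2 * K / η * (N : ℝ) ^ η := by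
          field_simp
          ring
        rw [e1]
        gcongr
    _ = _ := by ring

lemma pl_tendsto (C K r : ℕ) {δ : ℝ} (hδ : 0 < δ) : Tendsto (pl C K r δ) atTop (𝓝 0) := by
  set η : ℝ := δ / (2 * (r + 1)) with hη
  have hη0 : 0 < η := by positivity
  set D : ℝ := (2 * C + 1 + 2 * K / η) with hD
  have hD0 : 0 ≤ D := by positivity
  have h1 : Tendsto (fun N : ℕ => 2 * D ^ r * (N : ℝ) ^ (-(δ / 2))) atTop (𝓝 0) := by
    have h2 := (tendsto_rpow_neg_atTop (y := δ / 2) (by positivity)).comp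
      (tendsto_natCast_atTop_atTop (R := ℝ))
    have h3 := h2.const_mul (2 * D ^ r)
    rw [mul_zero] at h3
    exact h3
  refine squeeze_zero' (Eventually.of_forall fun N => ?_) ?_ h1
  · unfold pl
    positivity
  · filter_upwards [eventually_ge_atTop 1] with N hN
    have hN1 : (1 : ℝ) ≤ N := by exact_mod_cast hN
    have hN0 : (0 : ℝ) < N := by linarith
    have h2 := log_bound C K hη0 hN
    have h3 : ((Nat.log 2 (C * N ^ K) + 1 : ℕ) : ℝ) ^ r ≤ D ^ r * (N : ℝ) ^ (δ / 2) := by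
      refine (pow_le_pow_left₀ (by positivity) h2 r).trans ?_
      rw [mul_pow]
      apply mul_le_mul_of_nonneg_left _ (by positivity)
      rw [← Real.rpow_mul_natCast hN0.le]
      apply Real.rpow_le_rpow_of_exponent_le hN1
      rw [hη]
      have h5 : (0 : ℝ) ≤ r := by positivity
      rw [div_mul_eq_mul_div, div_le_div_iff₀ (by positivity) (by positivity)]
      nlinarith
    have h4 : (N : ℝ) ^ δ / 2 ≤ (⌊(N : ℝ) ^ δ⌋₊ : ℝ) := floor_half (Real.one_le_rpow hN1 hδ.le)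
    have h5 : (0 : ℝ) < (N : ℝ) ^ δ := by positivity
    unfold pl
    calc ((Nat.log 2 (C * N ^ K) + 1 : ℕ) : ℝ) ^ r / (⌊(N : ℝ) ^ δ⌋₊ : ℝ)
        ≤ (D ^ r * (N : ℝ) ^ (δ / 2)) / ((N : ℝ) ^ δ / 2) := by gcongr
      _ = 2 * D ^ r * ((N : ℝ) ^ (δ / 2) / (N : ℝ) ^ δ) := by
          field_simp
      _ = _ := by
          rw [← Real.rpow_sub hN0]
          congr 2
          ring

end Pool.Agent.K3h2.AP
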