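import Pool.Agent.K3h2.AP.Core

/-!
# Points in lowest terms; a bounded multiple of a point is nonsingular modulo a prime
-/

set_option autoImplicit false

namespace Pool.Agent.K3h2.AP

open Pool.Agent.Y732 WeierstrassCurve

/-- lowest terms -/
theorem reduce {A B Φ Ω Ψ : ℤ} (h : Ω ^ 2 = Φ ^ 3 + A * Φ * Ψ ^ 4 + B * Ψ ^ 6) (hΨ : Ψ ≠ 0) :
    ∃ (d : ℕ) (a b e : ℤ), 0 < d ∧ Φ = (d : ℤ) ^ 2 * a ∧ Ω = (d : ℤ) ^ 3 * b ∧ Ψ = d * e ∧ e ≠ 0 ∧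
      IsCoprime a e ∧ b ^ 2 = a ^ 3 + A * a * e ^ 4 + B * e ^ 6 := by
  classical
  have hΨ1 : 0 < Ψ.natAbs := Int.natAbs_pos.2 hΨ
  obtain ⟨d, hd, hmax⟩ := Finset.exists_max_image ((Finset.range (Ψ.natAbs + 1)).filter
    fun d : ℕ => 0 < d ∧ (d : ℤ) ∣ Ψ ∧ (d : ℤ) ^ 2 ∣ Φ) id ⟨1, by
      rw [Finset.mem_filter, Finset.mem_range]
      exact ⟨by omega, one_pos, by simp, by simp⟩⟩
  rw [Finset.mem_filter] at hd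
  obtain ⟨-, hd0, ⟨e, he⟩, ⟨a, ha⟩⟩ := hd
  have hdZ : (d : ℤ) ≠ 0 := by exact_mod_cast hd0.ne'
  have h6 : ((d : ℤ) ^ 3) ^ 2 ∣ Ω ^ 2 :=
    ⟨a ^ 3 + A * a * e ^ 4 + B * e ^ 6, by rw [h, ha, he]; ring⟩
  obtain ⟨b, hb⟩ := (Int.pow_dvd_pow_iff two_ne_zero).1 h6
  have heq : b ^ 2 = a ^ 3 + A * a * e ^ 4 + B * e ^ 6 := by
    apply mul_left_cancel₀ (pow_ne_zero 6 hdZ)
    rw [ha, hb, he] at h
    linear_combination h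
  have he0 : e ≠ 0 := by
    rintro rfl
    exact hΨ (by rw [he, mul_zero])
  refine ⟨d, a, b, e, hd0, ha, hb, he, he0, ?_, heq⟩
  rw [Int.isCoprime_iff_gcd_eq_one]
  by_contra hg
  obtain ⟨ℓ, hℓ, h2⟩ := Nat.exists_prime_and_dvd hg
  have hlp := Nat.prime_iff_prime_int.1 hℓ
  have hℓ0 : (ℓ : ℤ) ≠ 0 := hlp.ne_zero
  obtain ⟨a', rfl⟩ : (ℓ : ℤ) ∣ a := (Int.natCast_dvd_natCast.2 h2).trans (Int.gcd_dvd_left ..)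
  obtain ⟨e', rfl⟩ : (ℓ : ℤ) ∣ e := (Int.natCast_dvd_natCast.2 h2).trans (Int.gcd_dvd_right ..)
  obtain ⟨b1, rfl⟩ : (ℓ : ℤ) ∣ b := hlp.dvd_of_dvd_pow (n := 2)
    ⟨ℓ ^ 2 * a' ^ 3 + A * a' * ℓ ^ 4 * e' ^ 4 + B * ℓ ^ 5 * e' ^ 6, by rw [heq]; ring⟩
  have e1 : b1 ^ 2 = ℓ * (a' ^ 3 + A * a' * ℓ ^ 2 * e' ^ 4 + B * ℓ ^ 3 * e' ^ 6) := by
    apply mul_left_cancel₀ (pow_ne_zero 2 hℓ0)
    linear_combination heq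
  obtain ⟨b2, rfl⟩ : (ℓ : ℤ) ∣ b1 := hlp.dvd_of_dvd_pow (n := 2) ⟨_, e1⟩
  have e2 : ℓ * b2 ^ 2 = a' ^ 3 + A * a' * ℓ ^ 2 * e' ^ 4 + B * ℓ ^ 3 * e' ^ 6 := by
    apply mul_left_cancel₀ hℓ0
    linear_combination e1
  obtain ⟨a'', rfl⟩ : (ℓ : ℤ) ∣ a' := hlp.dvd_of_dvd_pow (n := 3)
    ⟨b2 ^ 2 - A * a' * ℓ * e' ^ 4 - B * ℓ ^ 2 * e' ^ 6, by linear_combination -e2⟩
  have hdiv : ((d * ℓ : ℕ) : ℤ) ∣ Ψ := ⟨e', by rw [he]; push_cast; ring⟩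
  have h3 := hmax (d * ℓ) (by
    rw [Finset.mem_filter, Finset.mem_range]
    refine ⟨?_, Nat.mul_pos hd0 hℓ.pos, hdiv, ⟨a'', by rw [ha]; push_cast; ring⟩⟩
    have := Nat.le_of_dvd hΨ1 (Int.natCast_dvd.1 hdiv)
    omega)
  simp only [id] at h3
  have h4 := hℓ.two_le
  nlinarith

variable {ℓ : ℕ} [hℓ : Fact ℓ.Prime]

/-- the point is integral at `ℓ` and reduces to a singular point -/
def Sg (ℓ : ℕ) [Fact ℓ.Prime] (A B : ℤ) (Q : (WQ (Wc A B)).Point) : Prop :=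
  ∃ (x y : ℚ) (h : (WQ (Wc A B)).Nonsingular x y), Q = .some _ _ h ∧ ‖(x : ℚ_[ℓ])‖ ≤ 1 ∧
    ‖(y : ℚ_[ℓ])‖ ≤ 1 ∧ ‖(2 * y : ℚ_[ℓ])‖ < 1 ∧ ‖(3 * x ^ 2 + A : ℚ_[ℓ])‖ < 1

lemma na {a b : ℚ_[ℓ]} {c : ℝ} (ha : ‖a‖ ≤ c) (hb : ‖b‖ ≤ c) : ‖a + b‖ ≤ c :=
  (IsUltrametricDist.norm_add_le_max _ _).trans (max_le ha hb)

lemma ns {a b : ℚ_[ℓ]} {c : ℝ} (ha : ‖a‖ ≤ c) (hb : ‖b‖ ≤ c) : ‖a - b‖ ≤ c := by
  rw [sub_eq_add_neg]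
  exact na ha (by rwa [norm_neg])

lemma nm {a b : ℚ_[ℓ]} {c : ℝ} (ha : ‖a‖ ≤ 1) (hb : ‖b‖ ≤ c) : ‖a * b‖ ≤ c := by
  rw [norm_mul]
  have h1 := norm_nonneg b
  have h2 := norm_nonneg a
  nlinarith

lemma ni (z : ℤ) : ‖(z : ℚ_[ℓ])‖ ≤ 1 := Padic.norm_int_le_one z

lemma eq_of {A B : ℤ} {x y : ℚ} (h : (WQ (Wc A B)).Nonsingular x y) :
    y ^ 2 = x ^ 3 + A * x + B := by
  have h1 := (Affine.equation_iff ..).1 h.1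
  simp [Wc] at h1
  linarith

/-- two points which are close and whose difference is integral -/
lemma close {A B : ℤ} {k : ℕ} {x1 y1 x2 y2 x3 y3 : ℚ} (h1 : (WQ (Wc A B)).Nonsingular x1 y1)
    (h2 : (WQ (Wc A B)).Nonsingular x2 y2) (h3 : (WQ (Wc A B)).Nonsingular x3 y3)
    (hx1 : ‖(x1 : ℚ_[ℓ])‖ ≤ 1) (hy1 : ‖(y1 : ℚ_[ℓ])‖ ≤ 1) (hx2 : ‖(x2 : ℚ_[ℓ])‖ ≤ 1)
    (hx3 : ‖(x3 : ℚ_[ℓ])‖ ≤ 1)
    (hcx : ‖(x2 : ℚ_[ℓ]) - x1‖ ≤ ((ℓ : ℝ)⁻¹) ^ k) (hcy : ‖(y2 : ℚ_[ℓ]) - y1‖ ≤ ((ℓ : ℝ)⁻¹) ^ k)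
    (hsum : Affine.Point.some _ _ h2 + -(Affine.Point.some _ _ h1) = Affine.Point.some _ _ h3) :
    ‖((4 * (4 * A ^ 3 + 27 * B ^ 2) : ℤ) : ℚ_[ℓ])‖ ≤ ((ℓ : ℝ)⁻¹) ^ k := by
  have hE1 := eq_of h1
  have hE2 := eq_of h2
  have hnegY : ∀ x y : ℚ, (WQ (Wc A B)).negY x y = -y := by
    intro x y
    simp [Affine.negY, Wc]
  rw [Affine.Point.neg_some] at hsum
  have haddX : ∀ x x' l : ℚ, (WQ (Wc A B)).addX x x' l = l ^ 2 - x - x' := by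
    intro x x' l
    simp [Affine.addX, Wc]
  -- the slope
  have key : ∃ l : ℚ, x3 = l ^ 2 - x2 - x1 ∧ l * (x2 - x1) = y2 + y1 ∧
      l * (y2 - y1) = x2 ^ 2 + x2 * x1 + x1 ^ 2 + A := by
    by_cases hx : x2 = x1
    · subst hx
      by_cases hy : y2 = y1
      · exfalso
        rw [Affine.Point.add_of_Y_eq rfl (by rw [hnegY, hnegY, neg_neg, hy])] at hsum
        exact Affine.Point.some_ne_zero _ hsum.symm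
      · have hy' : y2 ≠ (WQ (Wc A B)).negY x2 ((WQ (Wc A B)).negY x2 y1) := by
          rw [hnegY, hnegY, neg_neg]
          exact hy
        rw [Affine.Point.add_of_Y_ne hy'] at hsum
        simp only [Affine.Point.some.injEq] at hsum
        obtain ⟨hs1, -⟩ := hsum
        rw [haddX, Affine.slope_of_Y_ne rfl hy', hnegY] at hs1
        have hyy : (y2 - y1) * (y2 + y1) = 0 := by linear_combination hE2 - hE1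
        have hy2 : y2 + y1 = 0 := (mul_eq_zero.1 hyy).resolve_left (sub_ne_zero.2 hy)
        have hy3 : y2 - -y2 ≠ 0 := by
          intro h0
          apply hy
          linarith
        refine ⟨_, hs1.symm, ?_, ?_⟩
        · rw [sub_self, mul_zero, hy2]
        · have ha2 : (WQ (Wc A B)).a₂ = 0 := by simp [Wc]
          have ha1 : (WQ (Wc A B)).a₁ = 0 := by simp [Wc]
          have ha4 : (WQ (Wc A B)).a₄ = A := by simp [Wc]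
          rw [ha1, ha2, ha4]
          have hy4 : y2 - y1 = y2 - -y2 := by linarith
          rw [hy4, div_mul_cancel₀ _ hy3]
          ring
    · rw [Affine.Point.add_of_X_ne hx] at hsum
      simp only [Affine.Point.some.injEq] at hsum
      obtain ⟨hs1, -⟩ := hsum
      rw [haddX, Affine.slope_of_X_ne hx, hnegY] at hs1
      have hx' : x2 - x1 ≠ 0 := sub_ne_zero.2 hx
      refine ⟨_, hs1.symm, ?_, ?_⟩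
      · rw [div_mul_cancel₀ _ hx']
        ring
      · rw [div_mul_eq_mul_div, div_eq_iff hx']
        linear_combination hE2 - hE1
  obtain ⟨l, hl1, hl2, hl3⟩ := key
  have c1 : (x3 : ℚ_[ℓ]) = (l : ℚ_[ℓ]) ^ 2 - x2 - x1 := by exact_mod_cast congrArg (Rat.cast : ℚ → ℚ_[ℓ]) hl1
  have c2 : (l : ℚ_[ℓ]) * (x2 - x1) = y2 + y1 := by exact_mod_cast congrArg (Rat.cast : ℚ → ℚ_[ℓ]) hl2
  have c3 : (l : ℚ_[ℓ]) * (y2 - y1) = x2 ^ 2 + x2 * x1 + x1 ^ 2 + A := by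
    exact_mod_cast congrArg (Rat.cast : ℚ → ℚ_[ℓ]) hl3
  have c4 : (y1 : ℚ_[ℓ]) ^ 2 = x1 ^ 3 + A * x1 + B := by
    exact_mod_cast congrArg (Rat.cast : ℚ → ℚ_[ℓ]) hE1
  have hl : ‖(l : ℚ_[ℓ])‖ ≤ 1 := by
    have e1 : (l : ℚ_[ℓ]) ^ 2 = x3 + x2 + x1 := by rw [c1]; ring
    have e2 : ‖(l : ℚ_[ℓ]) ^ 2‖ ≤ 1 := by
      rw [e1]
      exact na (na hx3 hx2) hx1
    rw [norm_pow] at e2
    have e3 := norm_nonneg (l : ℚ_[ℓ])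
    nlinarith
  have g1 : ‖(2 * y1 : ℚ_[ℓ])‖ ≤ ((ℓ : ℝ)⁻¹) ^ k := by
    have e1 : (2 * y1 : ℚ_[ℓ]) = l * (x2 - x1) - (y2 - y1) := by rw [c2]; ring
    rw [e1]
    exact ns (nm hl hcx) hcy
  have g2 : ‖(3 * (x1 : ℚ_[ℓ]) ^ 2 + A)‖ ≤ ((ℓ : ℝ)⁻¹) ^ k := by
    have e1 : (3 * (x1 : ℚ_[ℓ]) ^ 2 + A) = l * (y2 - y1) - (2 * x1 + x2) * (x2 - x1) := by
      rw [c3]; ring
    rw [e1]
    refine ns (nm hl hcy) (nm (na ?_ hx2) hcx)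
    exact nm (by exact_mod_cast ni (ℓ := ℓ) 2) hx1
  have e1 : ((4 * (4 * A ^ 3 + 27 * B ^ 2) : ℤ) : ℚ_[ℓ]) =
      ((27 * B : ℤ) - ((18 * A : ℤ) : ℚ_[ℓ]) * x1) * (2 * y1) * (2 * y1) +
      ((4 : ℤ) : ℚ_[ℓ]) * (((6 * A : ℤ) : ℚ_[ℓ]) * x1 ^ 2 - ((9 * B : ℤ) : ℚ_[ℓ]) * x1 +
        ((4 * A ^ 2 : ℤ) : ℚ_[ℓ])) * (3 * x1 ^ 2 + A) := by
    push_cast
    linear_combination (-4 * (27 * (B : ℚ_[ℓ]) - 18 * A * x1)) * c4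
  have hx1sq : ‖(x1 : ℚ_[ℓ]) ^ 2‖ ≤ 1 := by
    rw [pow_two]
    exact nm hx1 hx1
  have h2y : ‖(2 * y1 : ℚ_[ℓ])‖ ≤ 1 := nm (by exact_mod_cast ni (ℓ := ℓ) 2) hy1
  rw [e1]
  refine na ?_ ?_
  · refine nm ?_ g1
    exact nm (ns (ni _) (nm (ni _) hx1)) h2y
  · refine nm ?_ g2
    exact nm (ni _) (na (ns (nm (ni _) hx1sq) (nm (ni _) hx1)) (ni _))

end Pool.Agent.K3h2.AP
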